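import Pool.Agent.LibST82.V

set_option autoImplicit false

/-!
ROW B0 (SHORT/MEDIUM).  Permutations of `Fin (N+1)` = (image of 0, permutation of the rest).
PLAN: E (k, τ) = (Fin.cycleRange k).symm * (decomposeFin.symm (0, τ)); `Fin.cycleRange_symm_zero`,
`Fin.cycleRange_symm_succ`, `Fin.sign_cycleRange`, `Equiv.Perm.decomposeFin_symm_apply_zero/succ`,
`Equiv.Perm.decomposeFin.symm_sign`.  Bijective: injective (k = E 0, then τ from succAbove injective) +
equal cardinalities, or give the inverse.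
-/

namespace ST82

theorem B0 (N : ℕ) : ∃ E : Fin (N + 1) × Equiv.Perm (Fin N) ≃ Equiv.Perm (Fin (N + 1)),
    ∀ (k : Fin (N + 1)) (τ : Equiv.Perm (Fin N)), E (k, τ) 0 = k ∧
      (∀ j : Fin N, E (k, τ) j.succ = k.succAbove (τ j)) ∧
      Equiv.Perm.sign (E (k, τ)) = (-1) ^ (k : ℕ) * Equiv.Perm.sign τ := by
  classical
  let e : Fin (N + 1) × Equiv.Perm (Fin N) → Equiv.Perm (Fin (N + 1)) := fun p =>
    (Fin.cycleRange p.1).symm * (Equiv.Perm.decomposeFin.symm ((0 : Fin (N + 1)), p.2))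
  have h0 : ∀ (k : Fin (N + 1)) (τ : Equiv.Perm (Fin N)), e (k, τ) 0 = k := by
    intro k τ
    simp only [e, Equiv.Perm.mul_apply, Equiv.Perm.decomposeFin_symm_apply_zero]
    exact Fin.cycleRange_symm_zero k
  have h1 : ∀ (k : Fin (N + 1)) (τ : Equiv.Perm (Fin N)) (j : Fin N),
      e (k, τ) j.succ = k.succAbove (τ j) := by
    intro k τ j
    simp only [e, Equiv.Perm.mul_apply, Equiv.Perm.decomposeFin_symm_apply_succ,
      Equiv.swap_self, Equiv.refl_apply]
    exact Fin.cycleRange_symm_succ k (τ j)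
  have h2 : ∀ (k : Fin (N + 1)) (τ : Equiv.Perm (Fin N)),
      Equiv.Perm.sign (e (k, τ)) = (-1) ^ (k : ℕ) * Equiv.Perm.sign τ := by
    intro k τ
    simp only [e]
    rw [Equiv.Perm.sign_mul, Equiv.Perm.sign_symm, Fin.sign_cycleRange,
      Equiv.Perm.decomposeFin.symm_sign]
    simp
  have hinj : Function.Injective e := by
    rintro ⟨k, τ⟩ ⟨k', τ'⟩ h
    have hk : k = k' := by
      rw [← h0 k τ, ← h0 k' τ', h]
    subst hk
    have hτ : τ = τ' := by
      ext j
      have := h1 k τ j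
      rw [h, h1 k τ' j] at this
      exact congrArg Fin.val (Fin.succAbove_right_injective this).symm
    rw [hτ]
  have hcard : Fintype.card (Fin (N + 1) × Equiv.Perm (Fin N)) =
      Fintype.card (Equiv.Perm (Fin (N + 1))) := by
    rw [Fintype.card_prod, Fintype.card_perm, Fintype.card_perm, Fintype.card_fin,
      Fintype.card_fin, Nat.factorial_succ]
  have hbij : Function.Bijective e := (Fintype.bijective_iff_injective_and_card e).2 ⟨hinj, hcard⟩
  refine ⟨Equiv.ofBijective e hbij, fun k τ => ⟨?_, ?_, ?_⟩⟩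
  · exact h0 k τ
  · exact h1 k τ
  · exact h2 k τ

end ST82
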