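import Pool.Agent.LibST82.V

set_option autoImplicit false

/-!
ROW B1 (SHORT/MEDIUM).  Interior faces cancel.  PLAN: reindex by σ |-> σ * swap (j-1) j
(`Equiv.mulRight`): `vtx (σ * swap) t = vtx σ t` for t ≠ j because (σ * swap).symm x = swap (σ.symm x) and
swap (j-1) j x < t iff x < t for t ≠ j; `skip j t ≠ j`; the sign changes.  So the sum is minus itself.
-/

namespace ST82

private theorem B1_vtx (N : ℕ) (j : ℕ) (hj : 1 ≤ j) (hj' : j ≤ N)
    (σ : Equiv.Perm (Fin (N + 1))) (t : ℕ) (ht : t ≠ j) :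
    vtx (σ * Equiv.swap ⟨j - 1, by omega⟩ ⟨j, by omega⟩) t = vtx σ t := by
  funext k
  by_cases hk : k < N + 1
  · rw [vtx_lt _ t k hk, vtx_lt _ t k hk, decide_eq_decide]
    have h1 : (σ * Equiv.swap (⟨j - 1, by omega⟩ : Fin (N + 1)) ⟨j, by omega⟩).symm ⟨k, hk⟩ =
        Equiv.swap (⟨j - 1, by omega⟩ : Fin (N + 1)) ⟨j, by omega⟩ (σ.symm ⟨k, hk⟩) := rfl
    rw [h1]
    generalize σ.symm ⟨k, hk⟩ = y
    by_cases hya : y = ⟨j - 1, by omega⟩
    · rw [hya, Equiv.swap_apply_left]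
      change j < t ↔ j - 1 < t
      omega
    · by_cases hyb : y = ⟨j, by omega⟩
      · rw [hyb, Equiv.swap_apply_right]
        change j - 1 < t ↔ j < t
        omega
      · rw [Equiv.swap_apply_of_ne_of_ne hya hyb]
  · rw [vtx_ge _ t k hk, vtx_ge _ t k hk]

theorem B1 {V : Type*} (N : ℕ) (s : (ℕ → V) → ℚ) (c : (ℕ → Bool) → V) (j : ℕ) (hj : 1 ≤ j)
    (hj' : j ≤ N) :
    ∑ σ : Equiv.Perm (Fin (N + 1)), ((Equiv.Perm.sign σ : ℤ) : ℚ) *
      s (fun t => c (vtx σ (skip j t))) = 0 := by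
  have hskip : ∀ t, skip j t ≠ j := by
    intro t
    unfold skip
    split_ifs <;> omega
  have hne : (⟨j - 1, by omega⟩ : Fin (N + 1)) ≠ ⟨j, by omega⟩ := by
    intro h
    have := congrArg Fin.val h
    change j - 1 = j at this
    omega
  have h1 : ∀ σ : Equiv.Perm (Fin (N + 1)),
      ((Equiv.Perm.sign (σ * Equiv.swap (⟨j - 1, by omega⟩ : Fin (N + 1)) ⟨j, by omega⟩) : ℤ) : ℚ) *
        s (fun t => c (vtx (σ * Equiv.swap ⟨j - 1, by omega⟩ ⟨j, by omega⟩) (skip j t))) =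
      - (((Equiv.Perm.sign σ : ℤ) : ℚ) * s (fun t => c (vtx σ (skip j t)))) := by
    intro σ
    have h2 : (fun t => c (vtx (σ * Equiv.swap ⟨j - 1, by omega⟩ ⟨j, by omega⟩) (skip j t))) =
        fun t => c (vtx σ (skip j t)) := by
      funext t
      rw [B1_vtx N j hj hj' σ _ (hskip t)]
    rw [h2, Equiv.Perm.sign_mul, Equiv.Perm.sign_swap hne]
    push_cast
    ring
  have h3 := Equiv.sum_comp
    (Equiv.mulRight (Equiv.swap (⟨j - 1, by omega⟩ : Fin (N + 1)) ⟨j, by omega⟩))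
    (fun σ : Equiv.Perm (Fin (N + 1)) => ((Equiv.Perm.sign σ : ℤ) : ℚ) *
      s (fun t => c (vtx σ (skip j t))))
  have h4 : ∑ σ : Equiv.Perm (Fin (N + 1)), - (((Equiv.Perm.sign σ : ℤ) : ℚ) *
      s (fun t => c (vtx σ (skip j t)))) = ∑ σ : Equiv.Perm (Fin (N + 1)),
      ((Equiv.Perm.sign σ : ℤ) : ℚ) * s (fun t => c (vtx σ (skip j t))) := by
    rw [← h3]
    exact Finset.sum_congr rfl fun σ _ => (h1 σ).symm
  rw [Finset.sum_neg_distrib] at h4
  linarith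

end ST82
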