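import Pool.Agent.LibST82.B0

set_option autoImplicit false

/-!
ROW B2 (SHORT/MEDIUM).  The face at time 0.  PLAN: reindex by E of B0; for σ = E (k, τ):
`vtx σ (t + 1) = ins k true (vtx τ t)` for all t (σ.symm k = 0, σ.symm (k.succAbove i) = (τ.symm i).succ).
-/

namespace ST82

private theorem B2_symm {N : ℕ} (σ : Equiv.Perm (Fin (N + 1))) (k : Fin (N + 1))
    (τ : Equiv.Perm (Fin N)) (h1 : ∀ j : Fin N, σ j.succ = k.succAbove (τ j)) (i : Fin N) :
    σ.symm (k.succAbove i) = (τ.symm i).succ := by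
  rw [Equiv.symm_apply_eq, h1, Equiv.apply_symm_apply]

private theorem B2_vtx {N : ℕ} (σ : Equiv.Perm (Fin (N + 1))) (k : Fin (N + 1))
    (τ : Equiv.Perm (Fin N)) (h0 : σ 0 = k) (h1 : ∀ j : Fin N, σ j.succ = k.succAbove (τ j))
    (t : ℕ) : vtx σ (t + 1) = ins k true (vtx τ t) := by
  funext i
  have hk := k.isLt
  unfold ins
  by_cases hi : i < (k : ℕ)
  · rw [if_pos hi]
    have hiN : i < N := by omega
    have hiN1 : i < N + 1 := by omega
    rw [vtx_lt σ (t + 1) i hiN1, vtx_lt τ t i hiN]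
    have h2 : (⟨i, hiN1⟩ : Fin (N + 1)) = k.succAbove ⟨i, hiN⟩ := by
      rw [Fin.succAbove_of_castSucc_lt]
      · rfl
      · exact Fin.lt_def.mpr (by simpa using hi)
    rw [h2, B2_symm σ k τ h1, decide_eq_decide, Fin.val_succ]
    omega
  · rw [if_neg hi]
    by_cases hik : i = (k : ℕ)
    · rw [if_pos hik]
      subst hik
      rw [vtx_lt σ (t + 1) (k : ℕ) hk]
      have h2 : σ.symm ⟨(k : ℕ), hk⟩ = 0 := by
        rw [Equiv.symm_apply_eq, h0]
      rw [h2]
      simp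
    · rw [if_neg hik]
      by_cases hiN1 : i < N + 1
      · have hiN : i - 1 < N := by omega
        rw [vtx_lt σ (t + 1) i hiN1, vtx_lt τ t (i - 1) hiN]
        have h2 : (⟨i, hiN1⟩ : Fin (N + 1)) = k.succAbove ⟨i - 1, hiN⟩ := by
          rw [Fin.succAbove_of_le_castSucc]
          · apply Fin.ext
            simp only [Fin.val_succ]
            omega
          · apply Fin.le_def.mpr
            simp only [Fin.val_castSucc]
            omega
        rw [h2, B2_symm σ k τ h1, decide_eq_decide, Fin.val_succ]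
        omega
      · rw [vtx_ge σ (t + 1) i hiN1, vtx_ge τ t (i - 1) (by omega)]

theorem B2 {V : Type*} (N : ℕ) (s : (ℕ → V) → ℚ) (c : (ℕ → Bool) → V) :
    ∑ σ : Equiv.Perm (Fin (N + 1)), ((Equiv.Perm.sign σ : ℤ) : ℚ) *
      s (fun t => c (vtx σ (t + 1))) =
    ∑ k ∈ Finset.range (N + 1), (-1 : ℚ) ^ k * ∑ τ : Equiv.Perm (Fin N),
      ((Equiv.Perm.sign τ : ℤ) : ℚ) * s (fun t => c (ins k true (vtx τ t))) := by
  obtain ⟨E, hE⟩ := B0 N
  rw [← Equiv.sum_comp E, Fintype.sum_prod_type, Finset.sum_range]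
  apply Finset.sum_congr rfl
  intro k _
  rw [Finset.mul_sum]
  apply Finset.sum_congr rfl
  intro τ _
  obtain ⟨h0, h1, h2⟩ := hE k τ
  have h3 : (fun t => c (vtx (E (k, τ)) (t + 1))) = fun t => c (ins k true (vtx τ t)) := by
    funext t
    rw [B2_vtx (E (k, τ)) k τ h0 h1 t]
  rw [h3, h2]
  push_cast
  ring

end ST82
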