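import Pool.Agent.LibST82.B0

set_option autoImplicit false

/-!
ROW B3 (SHORT/MEDIUM).  The face at the last time.  PLAN: reindex by (k, τ) |-> E (k, τ) * finRotate (N+1)
(E of B0): for σ = this, σ j = k.succAbove (τ j) for j < N and σ N = k
(`finRotate_last`, `finRotate_of_lt`), `sign_finRotate` gives (-1)^N; for t <= N
`vtx σ t = ins k false (vtx τ t)` (σ.symm k = N is not < t).
-/

namespace ST82

private theorem B3_vtx {N : ℕ} (k : Fin (N + 1)) (τ : Equiv.Perm (Fin N))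
    (σ : Equiv.Perm (Fin (N + 1))) (h0 : σ (Fin.last N) = k)
    (h1 : ∀ j : Fin N, σ j.castSucc = k.succAbove (τ j)) (t : ℕ) (ht : t ≤ N) :
    vtx σ t = ins k false (vtx τ t) := by
  funext i
  by_cases hi : i < N + 1
  · rw [vtx_lt σ t i hi]
    unfold ins
    rcases lt_trichotomy i (k : ℕ) with h | h | h
    · have hiN : i < N := by omega
      rw [if_pos h, vtx_lt τ t i hiN]
      have h2 : σ.symm ⟨i, hi⟩ = (τ.symm ⟨i, hiN⟩).castSucc := by
        rw [Equiv.symm_apply_eq, h1, Equiv.apply_symm_apply,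
          Fin.succAbove_of_castSucc_lt k ⟨i, hiN⟩ h]
        rfl
      rw [h2]
      rfl
    · rw [if_neg (by omega), if_pos h]
      have h2 : σ.symm ⟨i, hi⟩ = Fin.last N := by
        rw [Equiv.symm_apply_eq, h0]
        exact Fin.ext h
      rw [h2, Fin.val_last]
      exact decide_eq_false (by omega)
    · have hiN : i - 1 < N := by omega
      rw [if_neg (by omega), if_neg (by omega), vtx_lt τ t (i - 1) hiN]
      have h2 : σ.symm ⟨i, hi⟩ = (τ.symm ⟨i - 1, hiN⟩).castSucc := by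
        rw [Equiv.symm_apply_eq, h1, Equiv.apply_symm_apply,
          Fin.succAbove_of_le_castSucc k ⟨i - 1, hiN⟩ (Fin.le_def.2 (show (k : ℕ) ≤ i - 1 by omega))]
        refine Fin.ext ?_
        show i = i - 1 + 1
        omega
      rw [h2]
      rfl
  · have hk := k.isLt
    rw [vtx_ge σ t i hi]
    unfold ins
    rw [if_neg (by omega), if_neg (by omega), vtx_ge τ t (i - 1) (by omega)]

theorem B3 {V : Type*} (N : ℕ) (s : (ℕ → V) → ℚ)
    (hs : ∀ p p' : ℕ → V, (∀ t ≤ N, p t = p' t) → s p = s p') (c : (ℕ → Bool) → V) :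
    ∑ σ : Equiv.Perm (Fin (N + 1)), ((Equiv.Perm.sign σ : ℤ) : ℚ) *
      s (fun t => c (vtx σ t)) =
    (-1 : ℚ) ^ N * ∑ k ∈ Finset.range (N + 1), (-1 : ℚ) ^ k * ∑ τ : Equiv.Perm (Fin N),
      ((Equiv.Perm.sign τ : ℤ) : ℚ) * s (fun t => c (ins k false (vtx τ t))) := by
  obtain ⟨E, hE⟩ := B0 N
  have hkey : ∀ (k : Fin (N + 1)) (τ : Equiv.Perm (Fin N)),
      ((Equiv.Perm.sign (E (k, τ) * finRotate (N + 1)) : ℤ) : ℚ) *
        s (fun t => c (vtx (E (k, τ) * finRotate (N + 1)) t)) =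
      (-1 : ℚ) ^ N * ((-1 : ℚ) ^ (k : ℕ) * (((Equiv.Perm.sign τ : ℤ) : ℚ) *
        s (fun t => c (ins k false (vtx τ t))))) := by
    intro k τ
    obtain ⟨h1, h2, h3⟩ := hE k τ
    have h4 : s (fun t => c (vtx (E (k, τ) * finRotate (N + 1)) t)) =
        s (fun t => c (ins k false (vtx τ t))) := by
      refine hs _ _ fun t ht => ?_
      refine congrArg c (B3_vtx k τ _ ?_ (fun j => ?_) t ht)
      · rw [Equiv.Perm.mul_apply, finRotate_last, h1]
      · rw [Equiv.Perm.mul_apply, ← h2]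
        exact congrArg _ (finRotate_of_lt j.isLt)
    rw [h4, Equiv.Perm.sign_mul, sign_finRotate, h3, Nat.add_sub_cancel]
    push_cast
    ring
  have hre : ∀ f : Equiv.Perm (Fin (N + 1)) → ℚ, ∑ σ : Equiv.Perm (Fin (N + 1)), f σ =
      ∑ k : Fin (N + 1), ∑ τ : Equiv.Perm (Fin N), f (E (k, τ) * finRotate (N + 1)) := by
    intro f
    rw [← Fintype.sum_prod_type' (f := fun (k : Fin (N + 1)) (τ : Equiv.Perm (Fin N)) =>
      f (E (k, τ) * finRotate (N + 1)))]
    exact ((E.trans (Equiv.mulRight (finRotate (N + 1)))).sum_comp f).symm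
  rw [hre, Finset.sum_range, Finset.mul_sum]
  refine Finset.sum_congr rfl fun k _ => ?_
  rw [Finset.mul_sum, Finset.mul_sum]
  exact Finset.sum_congr rfl fun τ _ => hkey k τ

end ST82
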