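import Pool.Agent.LibST82.B1
import Pool.Agent.LibST82.B2
import Pool.Agent.LibST82.B3

set_option autoImplicit false

/-!
ROW B4 (SHORT).  Assembly.  PLAN: exchange the sums: 0 = sum_σ sign σ * sum_j (-1)^j s(...) =
sum_j (-1)^j sum_σ ...; j = 0 is B2 (skip 0 t = t + 1), 1 <= j <= N vanish by B1, j = N + 1 is B3
(skip (N+1) t = t for t <= N, use hs) with sign (-1)^(N+1) * (-1)^N = -1.
-/

namespace ST82

theorem B4 {V : Type*} (N : ℕ) (s : (ℕ → V) → ℚ)
    (hs : ∀ p p' : ℕ → V, (∀ t ≤ N, p t = p' t) → s p = s p') (c : (ℕ → Bool) → V)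
    (hc : ∀ σ : Equiv.Perm (Fin (N + 1)),
      ∑ j ∈ Finset.range (N + 2), (-1 : ℚ) ^ j * s (fun t => c (vtx σ (skip j t))) = 0) :
    ∑ k ∈ Finset.range (N + 1), (-1 : ℚ) ^ k *
      ((∑ τ : Equiv.Perm (Fin N), ((Equiv.Perm.sign τ : ℤ) : ℚ) *
          s (fun t => c (ins k true (vtx τ t)))) -
        ∑ τ : Equiv.Perm (Fin N), ((Equiv.Perm.sign τ : ℤ) : ℚ) *
          s (fun t => c (ins k false (vtx τ t)))) = 0 := by
  set T : ℕ → ℚ := fun j => ∑ σ : Equiv.Perm (Fin (N + 1)), ((Equiv.Perm.sign σ : ℤ) : ℚ) *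
      s (fun t => c (vtx σ (skip j t))) with hT
  have h0 : ∑ j ∈ Finset.range (N + 2), (-1 : ℚ) ^ j * T j = 0 := by
    simp only [hT, Finset.mul_sum]
    rw [Finset.sum_comm]
    refine Finset.sum_eq_zero fun σ _ => ?_
    have h1 := hc σ
    have h2 : ∑ j ∈ Finset.range (N + 2), (-1 : ℚ) ^ j * (((Equiv.Perm.sign σ : ℤ) : ℚ) *
        s (fun t => c (vtx σ (skip j t)))) = ((Equiv.Perm.sign σ : ℤ) : ℚ) *
        ∑ j ∈ Finset.range (N + 2), (-1 : ℚ) ^ j * s (fun t => c (vtx σ (skip j t))) := by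
      rw [Finset.mul_sum]
      refine Finset.sum_congr rfl fun j _ => ?_
      ring
    rw [h2, h1, mul_zero]
  have hmid : ∑ j ∈ Finset.range N, (-1 : ℚ) ^ (j + 1) * T (j + 1) = 0 := by
    refine Finset.sum_eq_zero fun j hj => ?_
    have hj' := Finset.mem_range.1 hj
    have h1 : T (j + 1) = 0 := B1 N s c (j + 1) (by omega) (by omega)
    rw [h1, mul_zero]
  rw [Finset.sum_range_succ', Finset.sum_range_succ, hmid, zero_add, pow_zero, one_mul] at h0
  have hT0 : T 0 = ∑ k ∈ Finset.range (N + 1), (-1 : ℚ) ^ k * ∑ τ : Equiv.Perm (Fin N),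
      ((Equiv.Perm.sign τ : ℤ) : ℚ) * s (fun t => c (ins k true (vtx τ t))) := by
    rw [← B2 N s c]
    rfl
  have hTN : T (N + 1) = (-1 : ℚ) ^ N * ∑ k ∈ Finset.range (N + 1), (-1 : ℚ) ^ k *
      ∑ τ : Equiv.Perm (Fin N), ((Equiv.Perm.sign τ : ℤ) : ℚ) *
        s (fun t => c (ins k false (vtx τ t))) := by
    rw [← B3 N s hs c]
    refine Finset.sum_congr rfl fun σ _ => ?_
    congr 1
    refine hs _ _ fun t ht => ?_
    change c (vtx σ (skip (N + 1) t)) = c (vtx σ t)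
    rw [skip_lt (by omega)]
  have hsign : (-1 : ℚ) ^ (N + 1) * (-1 : ℚ) ^ N = -1 := by
    rw [← pow_add]
    exact Odd.neg_one_pow ⟨N, by ring⟩
  rw [hT0, hTN, ← mul_assoc, hsign] at h0
  simp only [mul_sub, Finset.sum_sub_distrib]
  linarith

end ST82
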