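import Pool.Agent.LibST82.V

set_option autoImplicit false

/-!
ROW C1 (SHORT/MEDIUM).  The front part is a cocycle.  PLAN: by len_add and induction
len (l 0) (l (m+1)) = sum_(i <= m) len (l i) (l (i+1)) and 2 * that <= m + m, so some step r <= m has
len = 0, i.e. l r = l (r+1) (len_eq).  For j < r the sequence l ∘ skip j has the equal neighbours
r-1, r (r - 1 < m); for j > r+1 the equal neighbours r, r+1 (r < m): Φ = 0 there.  For j = r and j = r+1 the
two sequences are the same function (they differ only at t = r: l (r+1) against l r), the signs cancel.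
-/

namespace ST82

variable {G P : Type*}

private theorem C1_sum (D : Datum G P) (l : ℕ → P) (hpm : ∀ t, D.pm (l t))
    (hm : ∀ t t', t ≤ t' → D.le (l t) (l t')) (k : ℕ) :
    D.len (l 0) (l k) = ∑ i ∈ Finset.range k, D.len (l i) (l (i + 1)) := by
  induction k with
  | zero =>
    rw [Finset.range_zero, Finset.sum_empty]
    exact D.len_self (l 0) (hpm 0) (hm 0 0 le_rfl)
  | succ k ih =>
    rw [Finset.sum_range_succ, ← ih]
    exact D.len_add (l 0) (l k) (l (k + 1)) (hpm _) (hpm _) (hpm _) (hm _ _ (Nat.zero_le k))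
      (hm _ _ (Nat.le_succ k))

private theorem C1_step (D : Datum G P) (m : ℕ) (hr : D.rk = m + m) (l : ℕ → P)
    (hpm : ∀ t, D.pm (l t)) (hm : ∀ t t', t ≤ t' → D.le (l t) (l t')) :
    ∃ r ≤ m, l r = l (r + 1) := by
  by_contra hcon
  have h1 : ∀ i ∈ Finset.range (m + 1), 1 ≤ D.len (l i) (l (i + 1)) := by
    intro i hi
    have hi' : i < m + 1 := Finset.mem_range.mp hi
    by_contra h0
    apply hcon
    exact ⟨i, by omega, D.len_eq _ _ (hpm _) (hpm _) (hm _ _ (Nat.le_succ i)) (by omega)⟩
  have h2 : (Finset.range (m + 1)).card • 1 ≤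
      ∑ i ∈ Finset.range (m + 1), D.len (l i) (l (i + 1)) :=
    Finset.card_nsmul_le_sum _ _ _ h1
  rw [Finset.card_range, ← C1_sum D l hpm hm (m + 1)] at h2
  have h3 := D.len_le (l 0) (l (m + 1)) (hpm _) (hpm _) (hm _ _ (Nat.zero_le _))
  simp only [smul_eq_mul, mul_one] at h2
  omega

theorem C1 (D : Datum G P) (m : ℕ) (hr : D.rk = m + m) (l : ℕ → P) (hpm : ∀ t, D.pm (l t))
    (hm : ∀ t t', t ≤ t' → D.le (l t) (l t')) (Φ : (ℕ → P) → ℚ)
    (hΦ : ∀ l' : ℕ → P, (∃ i < m, l' i = l' (i + 1)) → Φ l' = 0) :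
    ∑ j ∈ Finset.range (m + 2), (-1 : ℚ) ^ j * Φ (fun t => l (skip j t)) = 0 := by
  obtain ⟨r, hrm, hreq⟩ := C1_step D m hr l hpm hm
  have hfun : (fun t => l (skip r t)) = (fun t => l (skip (r + 1) t)) := by
    funext t
    rcases Nat.lt_trichotomy t r with h | h | h
    · rw [skip_lt h, skip_lt (show t < r + 1 by omega)]
    · subst h
      rw [skip_ge le_rfl, skip_lt (Nat.lt_succ_self t)]
      exact hreq.symm
    · rw [skip_ge (show r ≤ t by omega), skip_ge (show r + 1 ≤ t by omega)]
  rw [Finset.sum_eq_add_of_mem r (r + 1) (Finset.mem_range.mpr (by omega))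
    (Finset.mem_range.mpr (by omega)) (by omega)]
  · rw [← hfun, pow_succ]
    ring
  · rintro j hj ⟨hj1, hj2⟩
    have hj' : j < m + 2 := Finset.mem_range.mp hj
    have hΦ0 : Φ (fun t => l (skip j t)) = 0 := by
      apply hΦ
      rcases Nat.lt_or_ge j r with h | h
      · refine ⟨r - 1, by omega, ?_⟩
        show l (skip j (r - 1)) = l (skip j (r - 1 + 1))
        rw [skip_ge (show j ≤ r - 1 by omega), skip_ge (show j ≤ r - 1 + 1 by omega)]
        rw [show r - 1 + 1 = r by omega]
        exact hreq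
      · refine ⟨r, by omega, ?_⟩
        show l (skip j r) = l (skip j (r + 1))
        rw [skip_lt (show r < j by omega), skip_lt (show r + 1 < j by omega)]
        exact hreq
    rw [hΦ0, mul_zero]

end ST82
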