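import Pool.Agent.LibST82.V

set_option autoImplicit false

/-!
ROW C2 (SHORT/MEDIUM).  A product of additive 1-cocycles is a cocycle.  PLAN: put
Q j = prod_(i < j) c i (y i) (y (i+1)) * prod_(j <= i < m) c i (y (i+1)) (y (i+2)), 0 <= j <= m.
Term j = 0 of the sum is Q 0, term m + 1 is Q m, term j (1 <= j <= m) is Q j + Q (j - 1) (the factor i = j - 1
is c (j-1) (y (j-1)) (y (j+1)) = c (j-1) (y (j-1)) (y j) + c (j-1) (y j) (y (j+1))).  Telescoping.
-/

namespace ST82

theorem C2 {V : Type*} (m : ℕ) (c : ℕ → V → V → ℚ) (y : ℕ → V)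
    (h : ∀ i < m, ∀ t t' t'' : ℕ, c i (y t) (y t'') = c i (y t) (y t') + c i (y t') (y t'')) :
    ∑ j ∈ Finset.range (m + 2), (-1 : ℚ) ^ j *
      ∏ i ∈ Finset.range m, c i (y (skip j i)) (y (skip j (i + 1))) = 0 := by
  obtain ⟨Q, hQ⟩ : ∃ Q : ℕ → ℚ, ∀ j, Q j = ∏ i ∈ Finset.range m,
      (if i < j then c i (y i) (y (i + 1)) else c i (y (i + 1)) (y (i + 2))) := ⟨_, fun _ => rfl⟩
  obtain ⟨T, hT⟩ : ∃ T : ℕ → ℚ, ∀ j, T j = ∏ i ∈ Finset.range m,
      c i (y (skip j i)) (y (skip j (i + 1))) := ⟨_, fun _ => rfl⟩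
  have h0 : T 0 = Q 0 := by
    rw [hT, hQ]
    refine Finset.prod_congr rfl fun i _ => ?_
    rw [if_neg (Nat.not_lt_zero i), skip_ge (Nat.zero_le i), skip_ge (Nat.zero_le (i + 1))]
  have hm : T (m + 1) = Q m := by
    rw [hT, hQ]
    refine Finset.prod_congr rfl fun i hi => ?_
    have hi' := Finset.mem_range.1 hi
    rw [if_pos hi', skip_lt (by omega), skip_lt (by omega)]
  have hj : ∀ j < m, T (j + 1) = Q (j + 1) + Q j := by
    intro j hjm
    rw [hT, hQ, hQ]
    symm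
    apply Finset.prod_add_prod_eq (Finset.mem_range.2 hjm)
    · rw [if_pos (Nat.lt_succ_self j), if_neg (lt_irrefl j), skip_lt (Nat.lt_succ_self j),
        skip_ge (le_refl (j + 1)), h j hjm j (j + 1) (j + 2)]
    · intro i hi hne
      by_cases hlt : i < j
      · rw [if_pos (by omega), skip_lt (by omega), skip_lt (by omega)]
      · rw [if_neg (by omega), skip_ge (by omega), skip_ge (by omega)]
    · intro i hi hne
      by_cases hlt : i < j
      · rw [if_pos hlt, skip_lt (by omega), skip_lt (by omega)]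
      · rw [if_neg hlt, skip_ge (by omega), skip_ge (by omega)]
  have hsum : ∑ j ∈ Finset.range (m + 2), (-1 : ℚ) ^ j *
      ∏ i ∈ Finset.range m, c i (y (skip j i)) (y (skip j (i + 1))) =
      ∑ j ∈ Finset.range (m + 2), (-1 : ℚ) ^ j * T j :=
    Finset.sum_congr rfl fun j _ => by rw [hT]
  rw [hsum, Finset.sum_range_succ', Finset.sum_range_succ, pow_zero, one_mul, h0, hm]
  have htel : ∑ j ∈ Finset.range m, (-1 : ℚ) ^ (j + 1) * T (j + 1) = (-1 : ℚ) ^ m * Q m - (-1 : ℚ) ^ 0 * Q 0 := by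
    rw [← Finset.sum_range_sub (fun j => (-1 : ℚ) ^ j * Q j) m]
    refine Finset.sum_congr rfl fun j hj' => ?_
    rw [hj j (Finset.mem_range.1 hj'), pow_succ]
    ring
  rw [htel, pow_succ, pow_zero]
  ring

end ST82
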