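import Pool.Agent.LibST82.C2

set_option autoImplicit false

/-!
ROW C3 (SHORT).  The same for `kap`.  PLAN: kap = sum_p coef p * prod_(i < m) c_p i (...) with c_p i = a i if
i = p, else b i (`Finset.mul_prod_erase`); exchange sums, C2 for every p.
-/

namespace ST82

theorem C3 {V : Type*} (m : ℕ) (a b : ℕ → V → V → ℚ) (y : ℕ → V)
    (ha : ∀ i < m, ∀ t t' t'' : ℕ, a i (y t) (y t'') = a i (y t) (y t') + a i (y t') (y t''))
    (hb : ∀ i < m, ∀ t t' t'' : ℕ, b i (y t) (y t'') = b i (y t) (y t') + b i (y t') (y t'')) :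
    ∑ j ∈ Finset.range (m + 2), (-1 : ℚ) ^ j *
      kap m (fun i => a i (y (skip j i)) (y (skip j (i + 1))))
        (fun i => b i (y (skip j i)) (y (skip j (i + 1)))) = 0 := by
  have h1 : ∀ j p, p ∈ Finset.range m →
      a p (y (skip j p)) (y (skip j (p + 1))) *
        ∏ i ∈ (Finset.range m).erase p, b i (y (skip j i)) (y (skip j (i + 1))) =
      ∏ i ∈ Finset.range m, (if i = p then a i else b i) (y (skip j i)) (y (skip j (i + 1))) := by
    intro j p hp
    rw [← Finset.mul_prod_erase (Finset.range m)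
      (fun i => (if i = p then a i else b i) (y (skip j i)) (y (skip j (i + 1)))) hp]
    simp only [if_true]
    congr 1
    refine Finset.prod_congr rfl fun i hi => ?_
    rw [if_neg (Finset.ne_of_mem_erase hi)]
  have h2 : ∀ j ∈ Finset.range (m + 2), (-1 : ℚ) ^ j *
      kap m (fun i => a i (y (skip j i)) (y (skip j (i + 1))))
        (fun i => b i (y (skip j i)) (y (skip j (i + 1)))) =
      ∑ p ∈ Finset.range m, (-1 : ℚ) ^ (m - 1 - p) * ((m - 1).choose p : ℚ) * ((-1 : ℚ) ^ j *
        ∏ i ∈ Finset.range m, (if i = p then a i else b i) (y (skip j i)) (y (skip j (i + 1)))) := by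
    intro j _
    rw [kap, Finset.mul_sum]
    refine Finset.sum_congr rfl fun p hp => ?_
    rw [h1 j p hp]
    ring
  rw [Finset.sum_congr rfl h2, Finset.sum_comm]
  refine Finset.sum_eq_zero fun p _ => ?_
  rw [← Finset.mul_sum, C2 m (fun i => if i = p then a i else b i) y ?_, mul_zero]
  intro i hi t t' t''
  by_cases h : i = p
  · simp only [if_pos h]
    exact ha i hi t t' t''
  · simp only [if_neg h]
    exact hb i hi t t' t''

end ST82
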