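import Pool.Agent.LibST82.C1
import Pool.Agent.LibST82.C3

set_option autoImplicit false

/-!
ROW C4 (MEDIUM).  `sp` is a cocycle (cup product).  PLAN: put for 0 <= j <= m + 1
X j = sp D m (fun t => y (m+1 + (t - m))) for t >= m ...: front = l ∘ skip j, back = y (m+1+i);
i.e. X j = Φ (l ∘ skip j) with Φ l' = if ∀ i < m, len (l' i) (l' (i+1)) = 1 then
  kap m (i ↦ A (y (m+1+i)) (y (m+1+i+1)) (l' i) (l' (i+1))) (same B) else 0
(Φ vanishes on l' with l' i = l' (i+1): len_self needs pm, le; to apply C1 for all l' use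
 Φ' l' = if (∀ t, pm (l' t)) ∧ (∀ t, le (l' t) (l' (t+1))) then Φ l' else 0, or classical cases);
Y j = if ∀ i < m, len (l i) (l (i+1)) = 1 then kap m (i ↦ A (y (m + skip j i)) (y (m + skip j (i+1))) (l i) (l (i+1))) ...
else 0.  C1: sum_(j <= m+1) (-1)^j X j = 0.  C3 (for the sequence t ↦ y (m+t)): sum_(j <= m+1) (-1)^j Y j = 0.
The wanted sum: for j <= m the term is X j; for j = m + j', 1 <= j' <= m+1, it is Y j' (sign (-1)^(m+j')).
X (m+1) = Y 0, and (-1)^(m+1) X (m+1) + (-1)^m Y 0 = 0, so the total is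
sum_(j<=m+1) (-1)^j X j + (-1)^m * sum_(j'<=m+1) (-1)^j' Y j' = 0.
-/

namespace ST82

variable {G P : Type*}

theorem C4 (D : Datum G P) (m : ℕ) (hr : D.rk = m + m) (y : ℕ → G) (l : ℕ → P)
    (hy : ∀ t, D.gm (y t)) (hpm : ∀ t, D.pm (l t)) (hm : ∀ t t', t ≤ t' → D.le (l t) (l t')) :
    ∑ j ∈ Finset.range (m + m + 2), (-1 : ℚ) ^ j *
      sp D m (fun t => y (skip j t)) (fun t => l (skip j t)) = 0 := by
  classical
  -- the front functional
  let Φ : (ℕ → P) → ℚ := fun l' =>
    if (∀ t, D.pm (l' t)) ∧ (∀ t, D.le (l' t) (l' (t + 1))) then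
      sp D m (fun t => y (t + 1)) l' else 0
  have hΦ : ∀ l' : ℕ → P, (∃ i < m, l' i = l' (i + 1)) → Φ l' = 0 := by
    rintro l' ⟨i, hi, hl⟩
    simp only [Φ]
    split_ifs with h
    · unfold sp
      rw [if_neg]
      intro hcon
      have h1 := hcon i hi
      have h2 := h.2 i
      rw [← hl] at h1 h2
      rw [D.len_self _ (h.1 i) h2] at h1
      exact zero_ne_one h1
    · rfl
  have hC1 := C1 D m hr l hpm hm Φ hΦ
  have hX : ∀ j, Φ (fun t => l (skip j t)) = sp D m (fun t => y (t + 1)) (fun t => l (skip j t)) := by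
    intro j
    simp only [Φ]
    rw [if_pos]
    exact ⟨fun t => hpm _, fun t => hm _ _ (skip_mono j (Nat.le_succ t))⟩
  -- the back functional
  let Y : ℕ → ℚ := fun j => if ∀ i < m, D.len (l i) (l (i + 1)) = 1 then
    kap m (fun i => D.A (y (m + skip j i)) (y (m + skip j (i + 1))) (l i) (l (i + 1)))
      (fun i => D.B (y (m + skip j i)) (y (m + skip j (i + 1))) (l i) (l (i + 1))) else 0
  have hC3 : ∑ j ∈ Finset.range (m + 2), (-1 : ℚ) ^ j * Y j = 0 := by
    by_cases h : ∀ i < m, D.len (l i) (l (i + 1)) = 1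
    · have := C3 m (fun i g g' => D.A g g' (l i) (l (i + 1))) (fun i g g' => D.B g g' (l i) (l (i + 1)))
        (fun t => y (m + t))
        (fun i hi t t' t'' => D.A_add _ _ _ _ _ (hy _) (hy _) (hy _) (hpm _) (hpm _)
          (hm _ _ (Nat.le_succ i)) (h i hi))
        (fun i hi t t' t'' => D.B_add _ _ _ _ _ (hy _) (hy _) (hy _) (hpm _) (hpm _)
          (hm _ _ (Nat.le_succ i)) (h i hi))
      rw [← this]
      apply Finset.sum_congr rfl
      intro j _
      simp only [Y]
      rw [if_pos h]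
    · apply Finset.sum_eq_zero
      intro j _
      simp only [Y]
      rw [if_neg h, mul_zero]
  -- the terms with `j ≤ m`
  have hA : ∀ j ≤ m, sp D m (fun t => y (skip j t)) (fun t => l (skip j t)) =
      sp D m (fun t => y (t + 1)) (fun t => l (skip j t)) := by
    intro j hj
    unfold sp
    split_ifs with h
    · apply kap_congr
      · intro i _
        simp only
        rw [skip_ge (by omega : j ≤ m + i), skip_ge (by omega : j ≤ m + i + 1)]
      · intro i _
        simp only
        rw [skip_ge (by omega : j ≤ m + i), skip_ge (by omega : j ≤ m + i + 1)]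
    · rfl
  -- the terms with `j = m + j'`, `1 ≤ j'`
  have hB : ∀ j, sp D m (fun t => y (skip (m + 1 + j) t)) (fun t => l (skip (m + 1 + j) t)) =
      Y (j + 1) := by
    intro j
    have e1 : ∀ i ≤ m, skip (m + 1 + j) i = i := fun i hi => skip_lt (by omega)
    have e2 : ∀ i, skip (m + 1 + j) (m + i) = m + skip (j + 1) i := by
      intro i
      unfold skip
      split_ifs <;> omega
    have hiff : (∀ i < m, D.len (l (skip (m + 1 + j) i)) (l (skip (m + 1 + j) (i + 1))) = 1) ↔
        ∀ i < m, D.len (l i) (l (i + 1)) = 1 := by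
      refine forall_congr' fun i => forall_congr' fun hi => ?_
      rw [e1 i hi.le, e1 (i + 1) hi]
    simp only [Y]
    unfold sp
    by_cases h : ∀ i < m, D.len (l i) (l (i + 1)) = 1
    · rw [if_pos (hiff.2 h), if_pos h]
      apply kap_congr
      · intro i hi
        simp only
        rw [e1 i hi.le, e1 (i + 1) hi, e2, add_assoc m i 1, e2]
      · intro i hi
        simp only
        rw [e1 i hi.le, e1 (i + 1) hi, e2, add_assoc m i 1, e2]
    · rw [if_neg (fun hc => h (hiff.1 hc)), if_neg h]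
  -- the common term
  have hXY : sp D m (fun t => y (t + 1)) (fun t => l (skip (m + 1) t)) = Y 0 := by
    have e1 : ∀ i ≤ m, skip (m + 1) i = i := fun i hi => skip_lt (by omega)
    have e2 : ∀ i, skip 0 i = i + 1 := fun i => skip_ge (Nat.zero_le i)
    have hiff : (∀ i < m, D.len (l (skip (m + 1) i)) (l (skip (m + 1) (i + 1))) = 1) ↔
        ∀ i < m, D.len (l i) (l (i + 1)) = 1 := by
      refine forall_congr' fun i => forall_congr' fun hi => ?_
      rw [e1 i hi.le, e1 (i + 1) hi]
    simp only [Y]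
    unfold sp
    by_cases h : ∀ i < m, D.len (l i) (l (i + 1)) = 1
    · rw [if_pos (hiff.2 h), if_pos h]
      apply kap_congr
      · intro i hi
        simp only
        rw [e1 i hi.le, e1 (i + 1) hi, e2, e2]
        rfl
      · intro i hi
        simp only
        rw [e1 i hi.le, e1 (i + 1) hi, e2, e2]
        rfl
    · rw [if_neg (fun hc => h (hiff.1 hc)), if_neg h]
  have s1 : ∑ j ∈ Finset.range (m + 1), (-1 : ℚ) ^ j *
      sp D m (fun t => y (skip j t)) (fun t => l (skip j t)) = -((-1 : ℚ) ^ (m + 1) * Y 0) := by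
    rw [Finset.sum_range_succ] at hC1
    have : ∑ j ∈ Finset.range (m + 1), (-1 : ℚ) ^ j *
      sp D m (fun t => y (skip j t)) (fun t => l (skip j t)) =
      ∑ j ∈ Finset.range (m + 1), (-1 : ℚ) ^ j * Φ (fun t => l (skip j t)) := by
      apply Finset.sum_congr rfl
      intro j hj
      rw [hX, hA j (by have := Finset.mem_range.1 hj; omega)]
    rw [this]
    rw [hX (m + 1), hXY] at hC1
    linarith
  have s2 : ∑ j ∈ Finset.range (m + 1), (-1 : ℚ) ^ (m + 1 + j) *
      sp D m (fun t => y (skip (m + 1 + j) t)) (fun t => l (skip (m + 1 + j) t)) =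
      (-1 : ℚ) ^ (m + 1) * Y 0 := by
    rw [Finset.sum_range_succ'] at hC3
    have : ∑ j ∈ Finset.range (m + 1), (-1 : ℚ) ^ (m + 1 + j) *
      sp D m (fun t => y (skip (m + 1 + j) t)) (fun t => l (skip (m + 1 + j) t)) =
      (-1 : ℚ) ^ m * ∑ j ∈ Finset.range (m + 1), (-1 : ℚ) ^ (j + 1) * Y (j + 1) := by
      rw [Finset.mul_sum]
      apply Finset.sum_congr rfl
      intro j _
      rw [hB, ← mul_assoc, ← pow_add]
      congr 2
      omega
    rw [this]
    have h3 : ∑ j ∈ Finset.range (m + 1), (-1 : ℚ) ^ (j + 1) * Y (j + 1) = -Y 0 := by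
      rw [pow_zero, one_mul] at hC3
      linarith
    rw [h3, pow_succ]
    ring
  rw [show m + m + 2 = (m + 1) + (m + 1) by omega, Finset.sum_range_add, s1, s2]
  ring

end ST82
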