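import Pool.Agent.LibST82.B4
import Pool.Agent.LibST82.C4

set_option autoImplicit false

/-!
ROW C6 (SHORT).  `S` kills boundaries of cubes.  PLAN: B4 with V = G × P, N = m + m,
s p = sp D m (fun t => (p t).1) (fun t => (p t).2), c v = (y v, l v); hs = `sp_congr`; hc = C4 for the
sequences y ∘ vtx σ, l ∘ vtx σ (monotone by `vtx_mono` and `hc.mono`).  Only gm, pm, mono of IsCube are used.
-/

namespace ST82

variable {G P : Type*}

theorem C6 (D : Datum G P) (m : ℕ) (hr : D.rk = m + m) (y : (ℕ → Bool) → G) (l : (ℕ → Bool) → P)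
    (hc : IsCube D (m + m + 1) y l) :
    ∑ k ∈ Finset.range (m + m + 1), (-1 : ℚ) ^ k *
      (S D m (fun v => y (ins k true v)) (fun v => l (ins k true v)) -
        S D m (fun v => y (ins k false v)) (fun v => l (ins k false v))) = 0 := by
  have h := B4 (V := G × P) (m + m)
    (fun p => sp D m (fun t => (p t).1) (fun t => (p t).2))
    (fun p p' hp => sp_congr D m _ _ _ _ (fun t ht => by rw [hp t ht]) (fun t ht => by rw [hp t ht]))
    (fun v => (y v, l v))
    (fun σ => C4 D m hr (fun t => y (vtx σ t)) (fun t => l (vtx σ t)) (fun t => hc.gm _)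
      (fun t => hc.pm _) (fun t t' htt => hc.mono _ _ (vtx_mono σ htt)))
  exact h

end ST82
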