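import Mathlib

set_option autoImplicit false

/-!
Block III (combinatorial half) of the project MP_8b67e9 (S02212): definitions.

A vertex of a cube of dimension `N` is a function `ℕ → Bool` of which only the coordinates `< N`
matter.  `vtx σ t` is the vertex reached at time `t` if the coordinates are switched on in the order
`σ 0, σ 1, ..., σ (N-1)`.
-/

namespace ST82

/-- `skip j` omits the time `j`. -/
def skip (j t : ℕ) : ℕ := if t < j then t else t + 1

/-- Insert the value `e` at the place `k`. -/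
def ins (k : ℕ) (e : Bool) (s : ℕ → Bool) : ℕ → Bool :=
  fun i => if i < k then s i else if i = k then e else s (i - 1)

/-- The vertex reached at time `t` along the order `σ` of the coordinates. -/
def vtx {N : ℕ} (σ : Equiv.Perm (Fin N)) (t : ℕ) : ℕ → Bool :=
  fun k => if h : k < N then decide ((σ.symm ⟨k, h⟩ : ℕ) < t) else false

/-- Is the coordinate switched on between the times `t` and `t + 1` one of the first `q`? -/
def blk (q : ℕ) {N : ℕ} (σ : Equiv.Perm (Fin N)) (t : ℕ) : Prop :=
  ∃ h : t < N, (σ ⟨t, h⟩ : ℕ) < q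

/-- The Lie functional `ad_b^(m-1) (a)` on words of length `m`; the letter `i` is given by its two
values `a i`, `b i`. -/
def kap (m : ℕ) (a b : ℕ → ℚ) : ℚ :=
  ∑ p ∈ Finset.range m, (-1 : ℚ) ^ (m - 1 - p) * ((m - 1).choose p : ℚ) *
    (a p * ∏ j ∈ (Finset.range m).erase p, b j)

/-- The shuffle permutation attached to a subset `K` of `range m` with `m1` elements: increasing on
`K` with values `0, ..., m1 - 1` and increasing on the complement with values `m1, ..., m - 1`. -/
def rho (m1 : ℕ) (K : Finset ℕ) (i : ℕ) : ℕ :=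
  if i ∈ K then (K.filter (· < i)).card else m1 + (i - (K.filter (· < i)).card)

/-- The permutation `R` of `0, ..., m + m - 1` acts by `rho m1 K` on both halves. -/
def IsDbl (m m1 : ℕ) (K : Finset ℕ) (R : Equiv.Perm (Fin (m + m))) : Prop :=
  (∀ (t : ℕ) (ht : t < m), (R ⟨t, by omega⟩ : ℕ) = rho m1 K t) ∧
    (∀ (t : ℕ) (ht : t < m), (R ⟨m + t, by omega⟩ : ℕ) = m + rho m1 K t) ∧
    Equiv.Perm.sign R = 1

/-- The pattern (first block / second block) of `σ` is `K` on the first half and on the second. -/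
def Pat (q m : ℕ) (σ : Equiv.Perm (Fin (m + m))) (K : Finset ℕ) : Prop :=
  ∀ i < m, (blk q σ i ↔ i ∈ K) ∧ (blk q σ (m + i) ↔ i ∈ K)

/-- Group elements `G` (those with `gm` count), lattices `P` (those with `pm` count), colength `len`,
and two additive cocycles `A`, `B` attached to the steps of colength one. -/
structure Datum (G P : Type*) where
  rk : ℕ
  gm : G → Prop
  pm : P → Prop
  le : P → P → Prop
  len : P → P → ℕ
  A : G → G → P → P → ℚ
  B : G → G → P → P → ℚ
  len_add : ∀ x y z, pm x → pm y → pm z → le x y → le y z → len x z = len x y + len y z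
  len_eq : ∀ x y, pm x → pm y → le x y → len x y = 0 → x = y
  len_le : ∀ x y, pm x → pm y → le x y → 2 * len x y ≤ rk
  A_add : ∀ g g' g'' x y, gm g → gm g' → gm g'' → pm x → pm y → le x y → len x y = 1 →
    A g g'' x y = A g g' x y + A g' g'' x y
  B_add : ∀ g g' g'' x y, gm g → gm g' → gm g'' → pm x → pm y → le x y → len x y = 1 →
    B g g'' x y = B g g' x y + B g' g'' x y

variable {G P G1 P1 G2 P2 : Type*}

/-- The block sum of two data. -/
structure Block (D1 : Datum G1 P1) (D2 : Datum G2 P2) (D : Datum G P) where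
  gs : G1 → G2 → G
  ls : P1 → P2 → P
  len : ∀ x x' y y', D1.pm x → D1.pm x' → D1.le x x' → D2.pm y → D2.pm y' → D2.le y y' →
    D.len (ls x y) (ls x' y') = D1.len x x' + D2.len y y'
  A1 : ∀ g g' h h' x x' y, D1.gm g → D1.gm g' → D2.gm h → D2.gm h' → D1.pm x → D1.pm x' →
    D1.le x x' → D1.len x x' = 1 → D2.pm y →
    D.A (gs g h) (gs g' h') (ls x y) (ls x' y) = D1.A g g' x x'
  B1 : ∀ g g' h h' x x' y, D1.gm g → D1.gm g' → D2.gm h → D2.gm h' → D1.pm x → D1.pm x' →
    D1.le x x' → D1.len x x' = 1 → D2.pm y →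
    D.B (gs g h) (gs g' h') (ls x y) (ls x' y) = D1.B g g' x x'
  A2 : ∀ g g' h h' x y y', D1.gm g → D1.gm g' → D2.gm h → D2.gm h' → D1.pm x → D2.pm y →
    D2.pm y' → D2.le y y' → D2.len y y' = 1 →
    D.A (gs g h) (gs g' h') (ls x y) (ls x y') = D2.A h h' y y'
  B2 : ∀ g g' h h' x y y', D1.gm g → D1.gm g' → D2.gm h → D2.gm h' → D1.pm x → D2.pm y →
    D2.pm y' → D2.le y y' → D2.len y y' = 1 →
    D.B (gs g h) (gs g' h') (ls x y) (ls x y') = D2.B h h' y y'

/-- The functional on paths of length `m + m`: the first `m` steps must be lattice steps of colength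
one, the last `m` steps feed the cocycles attached to them. -/
def sp (D : Datum G P) (m : ℕ) (y : ℕ → G) (l : ℕ → P) : ℚ :=
  if ∀ i < m, D.len (l i) (l (i + 1)) = 1 then
    kap m (fun i => D.A (y (m + i)) (y (m + i + 1)) (l i) (l (i + 1)))
      (fun i => D.B (y (m + i)) (y (m + i + 1)) (l i) (l (i + 1)))
  else 0

/-- The functional on cubes of dimension `m + m`. -/
def S (D : Datum G P) (m : ℕ) (y : (ℕ → Bool) → G) (l : (ℕ → Bool) → P) : ℚ :=
  ∑ σ : Equiv.Perm (Fin (m + m)), ((Equiv.Perm.sign σ : ℤ) : ℚ) *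
    sp D m (fun t => y (vtx σ t)) (fun t => l (vtx σ t))

/-- `(y, l)` is a cube of dimension `N` of the datum `D`. -/
structure IsCube (D : Datum G P) (N : ℕ) (y : (ℕ → Bool) → G) (l : (ℕ → Bool) → P) : Prop where
  gm : ∀ v, D.gm (y v)
  pm : ∀ v, D.pm (l v)
  mono : ∀ v w, v ≤ w → D.le (l v) (l w)
  depy : ∀ v w, (∀ k < N, v k = w k) → y v = y w
  depl : ∀ v w, (∀ k < N, v k = w k) → l v = l w

/-- group part of the product of two cubes, the first of dimension `q` -/
def py {D1 : Datum G1 P1} {D2 : Datum G2 P2} {D : Datum G P} (T : Block D1 D2 D) (q : ℕ)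
    (y1 : (ℕ → Bool) → G1) (y2 : (ℕ → Bool) → G2) : (ℕ → Bool) → G :=
  fun v => T.gs (y1 v) (y2 (fun i => v (q + i)))

/-- lattice part of the product of two cubes, the first of dimension `q` -/
def pl {D1 : Datum G1 P1} {D2 : Datum G2 P2} {D : Datum G P} (T : Block D1 D2 D) (q : ℕ)
    (l1 : (ℕ → Bool) → P1) (l2 : (ℕ → Bool) → P2) : (ℕ → Bool) → P :=
  fun v => T.ls (l1 v) (l2 (fun i => v (q + i)))

end ST82
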