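import Pool.Agent.LibST82.V

set_option autoImplicit false

/-!
ROW E1 (SHORT/MEDIUM).  `S` vanishes on degenerate cubes.  PLAN: every term vanishes: let
t = σ.symm ⟨k, hk⟩; the vertices `vtx σ t` and `vtx σ (t+1)` differ only at k (`vtx_succ_of_ne`), so y and l
agree there.  If t < m: len x x = 0 ≠ 1 (`Datum.len_self`), sp = 0.  If t >= m: i = t - m, A g g = 0, B g g = 0
(`Datum.A_self`, `Datum.B_self`; if the front condition holds the step i has len 1), `kap_zero`.
-/

namespace ST82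

variable {G P : Type*}

theorem E1 (D : Datum G P) (m : ℕ) (y : (ℕ → Bool) → G) (l : (ℕ → Bool) → P)
    (hc : IsCube D (m + m) y l) (k : ℕ) (hk : k < m + m)
    (h : ∀ v v' : ℕ → Bool, (∀ i, i ≠ k → v i = v' i) → y v = y v' ∧ l v = l v') :
    S D m y l = 0 := by
  unfold S
  apply Finset.sum_eq_zero
  intro σ _
  have hsp : sp D m (fun t => y (vtx σ t)) (fun t => l (vtx σ t)) = 0 := by
    obtain ⟨t, ht, hσt⟩ : ∃ (t : ℕ) (ht : t < m + m), (σ ⟨t, ht⟩ : ℕ) = k :=
      ⟨(σ.symm ⟨k, hk⟩ : ℕ), (σ.symm ⟨k, hk⟩).2, by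
        rw [Fin.eta, Equiv.apply_symm_apply]⟩
    obtain ⟨hy, hl⟩ := h (vtx σ (t + 1)) (vtx σ t)
      (fun i hi => vtx_succ_of_ne σ t ht i (by rw [hσt]; exact hi))
    unfold sp
    by_cases hf : ∀ i < m, D.len (l (vtx σ i)) (l (vtx σ (i + 1))) = 1
    · rw [if_pos hf]
      have htm : m ≤ t := by
        by_contra hlt
        have h1 := hf t (not_le.mp hlt)
        rw [hl, D.len_self _ (hc.pm _) (hc.mono _ _ le_rfl)] at h1
        exact absurd h1 (by norm_num)
      have hi : t - m < m := by omega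
      have e1 : m + (t - m) = t := by omega
      have hle := hc.mono _ _ (vtx_mono σ (Nat.le_succ (t - m)))
      apply kap_zero m _ _ (t - m) hi
      · simp only [e1, hy]
        exact D.A_self _ _ _ (hc.gm _) (hc.pm _) (hc.pm _) hle (hf _ hi)
      · simp only [e1, hy]
        exact D.B_self _ _ _ (hc.gm _) (hc.pm _) (hc.pm _) hle (hf _ hi)
    · rw [if_neg hf]
  rw [hsp, mul_zero]

end ST82
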