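import Pool.Agent.LibST82.D
import Pool.Agent.LibSt16.Defs

set_option autoImplicit false

/-!
Block III of MP_8b67e9 (S02212): the functional `FF` on the bar complex of a system with a family of data.
Definitions.
-/

noncomputable section

namespace St16

variable {G P : Type} [Group G] [Preorder P] [MulAction G P]

/-- a family of data (colength, cocycles) on a system, compatible with block sums and invariant -/
structure Fam (S : Sys G P) where
  D : ℕ → ST82.Datum G P
  rk : ∀ n, (D n).rk = n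
  gm : ∀ n g, g ∈ S.Gn n → (D n).gm g
  pm : ∀ n a, a ∈ S.Pn n → (D n).pm a
  le : ∀ n a b, a ≤ b → (D n).le a b
  T : ∀ n n' : ℕ, ST82.Block (D n) (D n') (D (n + n'))
  T_gs : ∀ n n' g h, (T n n').gs g h = g * S.sh n h
  T_ls : ∀ n n' x y, (T n n').ls x y = S.jn n x y
  inv_len : ∀ n g x y, g ∈ S.Gn n → x ∈ S.Pn n → y ∈ S.Pn n → x ≤ y →
    (D n).len (g • x) (g • y) = (D n).len x y
  inv_A : ∀ n g h h' x y, g ∈ S.Gn n → h ∈ S.Gn n → h' ∈ S.Gn n → x ∈ S.Pn n → y ∈ S.Pn n →
    x ≤ y → (D n).len x y = 1 → (D n).A (g * h) (g * h') (g • x) (g • y) = (D n).A h h' x y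
  inv_B : ∀ n g h h' x y, g ∈ S.Gn n → h ∈ S.Gn n → h' ∈ S.Gn n → x ∈ S.Pn n → y ∈ S.Pn n →
    x ≤ y → (D n).len x y = 1 → (D n).B (g * h) (g * h') (g • x) (g • y) = (D n).B h h' x y

variable {S : Sys G P}

/-- the residue functional on cubes -/
def Fcb (Fm : Fam S) (m : ℕ) (c : Cb S) : ℚ :=
  open Classical in if c.r = m + m ∧ c.q = m + m then ST82.S (Fm.D (m + m)) m c.y c.l else 0

/-- the residue functional on lists: only lists of length one count -/
def Fls (Fm : Fam S) (m : ℕ) : List (Cb S) → ℚ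
  | [c] => Fcb Fm m c
  | _ => 0

/-- the residue functional on the bar complex -/
def FF (Fm : Fam S) (m : ℕ) : BT S →ₗ[ℚ] ℚ := Finsupp.linearCombination ℚ (Fls Fm m)

end St16
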