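import Pool.Agent.LibST82.G0
import Pool.Agent.LibST82.E1

set_option autoImplicit false

noncomputable section

namespace St16

variable {G P : Type} [Group G] [Preorder P] [MulAction G P] {S : Sys G P}

theorem isCube_of (Fm : Fam S) (c : Cb S) : ST82.IsCube (Fm.D c.r) c.q c.y c.l where
  gm := fun v => Fm.gm _ _ (c.y_mem v)
  pm := fun v => Fm.pm _ _ (c.l_mem v)
  mono := fun v w h => Fm.le _ _ _ (c.l_mono v w h)
  depy := fun v w h => c.y_dep v w h
  depl := fun v w h => c.l_dep v w h

theorem Fcb_deg (Fm : Fam S) (m : ℕ) (c : Cb S) (hc : c.Dg) : Fcb Fm m c = 0 := by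
  unfold Fcb
  by_cases h : c.r = m + m ∧ c.q = m + m
  · rw [if_pos h]
    obtain ⟨k, hk, hk'⟩ := hc
    have hcube := isCube_of Fm c
    rw [h.1, h.2] at hcube
    rw [h.2] at hk
    exact ST82.E1 (Fm.D (m + m)) m c.y c.l hcube k hk hk'
  · rw [if_neg h]

theorem FF_deg (Fm : Fam S) (m : ℕ) (z : BT S) (hz : z ∈ DegB S) : FF Fm m z = 0 := by
  unfold FF
  rw [Finsupp.linearCombination_apply, Finsupp.sum]
  apply Finset.sum_eq_zero
  intro l hl
  have h1 : ∃ c ∈ l, c.Dg := by
    have := (Finsupp.mem_supported ℚ z).mp hz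
    exact this hl
  obtain ⟨c, hc, hcd⟩ := h1
  have h2 : Fls Fm m l = 0 := by
    match l, hc with
    | [c'], hc =>
      have : c = c' := by simpa using hc
      subst this
      exact Fcb_deg Fm m c hcd
    | [], hc => exact absurd hc (by simp)
    | _ :: _ :: _, _ => rfl
  rw [h2, smul_zero]

end St16
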