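import Pool.Agent.LibST82.G1
import Pool.Agent.LibST82.C6

set_option autoImplicit false

/-!
ROW G2 (SHORT/MEDIUM).  `Fcb` kills the boundary of a cube.  PLAN: if c.r ≠ m + m, or c.q = 0, or
c.q ≠ m + m + 1 every term is 0 (the faces k < c.q have rank c.r and dimension c.q - 1).  Otherwise for k < c.q,
Fcb (c.face b k) = ST82.S (Fm.D (m+m)) m (fun s => c.y (ins k b s)) (fun s => c.l (ins k b s)) by invariance
(inside ST82.S, ST82.sp every term: inv_len, inv_A, inv_B with g = (c.fv b k)⁻¹; the values of y, l along paths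
are in Gn, Pn, the lattices are ordered by `ST82.vtx_mono` + l_mono; `St16.ins = ST82.ins` by rfl; use
`ST82.kap_congr`).  Then ST82.C6 with isCube_of.
-/

noncomputable section

namespace St16

variable {G P : Type} [Group G] [Preorder P] [MulAction G P] {S : Sys G P}

/-- invariance of `ST82.S` -/
theorem S_inv (Fm : Fam S) (n m : ℕ) (g : G) (hg : g ∈ S.Gn n) (y : (ℕ → Bool) → G)
    (l : (ℕ → Bool) → P) (hy : ∀ v, y v ∈ S.Gn n) (hl : ∀ v, l v ∈ S.Pn n)
    (hm : ∀ v w, v ≤ w → l v ≤ l w) :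
    ST82.S (Fm.D n) m (fun v => g * y v) (fun v => g • l v) = ST82.S (Fm.D n) m y l := by
  unfold ST82.S
  refine Finset.sum_congr rfl fun σ _ => ?_
  congr 1
  unfold ST82.sp
  have hle : ∀ i, l (ST82.vtx σ i) ≤ l (ST82.vtx σ (i + 1)) :=
    fun i => hm _ _ (ST82.vtx_mono σ (Nat.le_succ i))
  have hlen : ∀ i, (Fm.D n).len (g • l (ST82.vtx σ i)) (g • l (ST82.vtx σ (i + 1))) =
      (Fm.D n).len (l (ST82.vtx σ i)) (l (ST82.vtx σ (i + 1))) :=
    fun i => Fm.inv_len n g _ _ hg (hl _) (hl _) (hle i)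
  by_cases h : ∀ i < m, (Fm.D n).len (l (ST82.vtx σ i)) (l (ST82.vtx σ (i + 1))) = 1
  · rw [if_pos h, if_pos (fun i hi => (hlen i).trans (h i hi))]
    refine ST82.kap_congr m _ _ _ _ (fun i hi => ?_) (fun i hi => ?_)
    · exact Fm.inv_A n g _ _ _ _ hg (hy _) (hy _) (hl _) (hl _) (hle i) (h i hi)
    · exact Fm.inv_B n g _ _ _ _ hg (hy _) (hy _) (hl _) (hl _) (hle i) (h i hi)
  · rw [if_neg h, if_neg]
    intro h'
    exact h fun i hi => (hlen i).symm.trans (h' i hi)

private theorem G2_face (Fm : Fam S) (m : ℕ) (c : Cb S) (b : Bool) (k : ℕ) (hk : k < c.q)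
    (h : c.r = m + m ∧ c.q = m + m + 1) :
    Fcb Fm m (c.face b k) =
      ST82.S (Fm.D (m + m)) m (fun v => c.y (ST82.ins k b v)) (fun v => c.l (ST82.ins k b v)) := by
  have hr : (c.face b k).r = m + m := by
    unfold Cb.face
    rw [dif_pos hk]
    exact h.1
  have hq : (c.face b k).q = m + m := by
    unfold Cb.face
    rw [dif_pos hk]
    show c.q - 1 = m + m
    omega
  have hy : (c.face b k).y = fun s => (c.fv b k)⁻¹ * c.y (ins k b s) := by
    unfold Cb.face
    rw [dif_pos hk]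
  have hl : (c.face b k).l = fun s => (c.fv b k)⁻¹ • c.l (ins k b s) := by
    unfold Cb.face
    rw [dif_pos hk]
  unfold Fcb
  rw [if_pos ⟨hr, hq⟩, hy, hl]
  refine S_inv Fm (m + m) m (c.fv b k)⁻¹ ?_ (fun v => c.y (ins k b v))
    (fun v => c.l (ins k b v)) ?_ ?_ ?_
  · have h1 := c.y_mem (ins k b z0)
    rw [h.1] at h1
    exact inv_mem h1
  · intro v
    have h1 := c.y_mem (ins k b v)
    rw [h.1] at h1
    exact h1
  · intro v
    have h1 := c.l_mem (ins k b v)
    rw [h.1] at h1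
    exact h1
  · intro v w hvw
    refine c.l_mono _ _ fun i => ?_
    unfold ins
    by_cases h1 : i < k
    · simp only [h1, if_true]
      exact hvw i
    · by_cases h2 : i = k
      · simp [h2]
      · simp only [h1, h2, if_false]
        exact hvw _

private theorem G2_face0 (Fm : Fam S) (m : ℕ) (c : Cb S) (b : Bool) (k : ℕ) (hk : k < c.q)
    (h : ¬ (c.r = m + m ∧ c.q = m + m + 1)) : Fcb Fm m (c.face b k) = 0 := by
  have hr : (c.face b k).r = c.r := by
    unfold Cb.face
    rw [dif_pos hk]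
  have hq : (c.face b k).q = c.q - 1 := by
    unfold Cb.face
    rw [dif_pos hk]
  unfold Fcb
  rw [if_neg]
  rw [hr, hq]
  rintro ⟨h1, h2⟩
  exact h ⟨h1, by omega⟩

theorem Fcb_bd1 (Fm : Fam S) (m : ℕ) (c : Cb S) :
    Finsupp.linearCombination ℚ (Fcb Fm m) (bd1 c) = 0 := by
  have hsum : Finsupp.linearCombination ℚ (Fcb Fm m) (bd1 c) =
      ∑ k ∈ Finset.range c.q, (-1 : ℚ) ^ k * (Fcb Fm m (c.face true k) - Fcb Fm m (c.face false k)) := by
    unfold bd1
    rw [map_sum]
    refine Finset.sum_congr rfl fun k _ => ?_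
    rw [map_smul, map_sub, Finsupp.linearCombination_single, Finsupp.linearCombination_single,
      one_smul, one_smul, smul_eq_mul]
  rw [hsum]
  by_cases h : c.r = m + m ∧ c.q = m + m + 1
  · have hcube : ST82.IsCube (Fm.D (m + m)) (m + m + 1) c.y c.l := by
      have h1 := isCube_of Fm c
      rw [h.1, h.2] at h1
      exact h1
    have h2 := ST82.C6 (Fm.D (m + m)) m (Fm.rk _) c.y c.l hcube
    rw [h.2, ← h2]
    refine Finset.sum_congr rfl fun k hk => ?_
    have hk' : k < c.q := by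
      rw [h.2]
      exact Finset.mem_range.1 hk
    rw [G2_face Fm m c true k hk' h, G2_face Fm m c false k hk' h]
  · refine Finset.sum_eq_zero fun k hk => ?_
    have hk' := Finset.mem_range.1 hk
    rw [G2_face0 Fm m c true k hk' h, G2_face0 Fm m c false k hk' h, sub_zero, mul_zero]

end St16
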