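import Pool.Agent.LibST82.P1

set_option autoImplicit false

/-!
ROW P3 (MEDIUM).  The letters of a path of the product cube.  PLAN: front step i in the first block of length 1:
pl at times i, i+1 is T.ls x z, T.ls x' z with the same z (P1a), len1 x x' = 1 (P1c), so T.A1 / T.B1 give the
value D1.A ....  If the back step m + i is in the other block then y1 does not change (P1b, depy), so
D1.A g g = 0 (`Datum.A_self`).  The same with the blocks exchanged (P1b, depl for l1; T.A2, T.B2).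
-/

namespace ST82

variable {G P G1 P1 G2 P2 : Type*} {D1 : Datum G1 P1} {D2 : Datum G2 P2} {D : Datum G P}

section

variable (T : Block D1 D2 D) (m q q' : ℕ) (hN : q + q' = m + m)
    (y1 : (ℕ → Bool) → G1) (l1 : (ℕ → Bool) → P1) (y2 : (ℕ → Bool) → G2) (l2 : (ℕ → Bool) → P2)
    (hc1 : IsCube D1 q y1 l1) (hc2 : IsCube D2 q' y2 l2) (σ : Equiv.Perm (Fin (m + m)))
    (i : ℕ) (hi : i < m)
    (h1 : D.len (pl T q l1 l2 (vtx σ i)) (pl T q l1 l2 (vtx σ (i + 1))) = 1)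

include hN hc1 hc2 hi h1

/-- letter of the first block -/
theorem P3a (hb : blk q σ i) :
    D.A (py T q y1 y2 (vtx σ (m + i))) (py T q y1 y2 (vtx σ (m + i + 1)))
        (pl T q l1 l2 (vtx σ i)) (pl T q l1 l2 (vtx σ (i + 1))) =
      D1.A (y1 (vtx σ (m + i))) (y1 (vtx σ (m + i + 1))) (l1 (vtx σ i)) (l1 (vtx σ (i + 1))) ∧
    D.B (py T q y1 y2 (vtx σ (m + i))) (py T q y1 y2 (vtx σ (m + i + 1)))
        (pl T q l1 l2 (vtx σ i)) (pl T q l1 l2 (vtx σ (i + 1))) =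
      D1.B (y1 (vtx σ (m + i))) (y1 (vtx σ (m + i + 1))) (l1 (vtx σ i)) (l1 (vtx σ (i + 1))) := by
  have hst := P1a q σ i (by omega) hb
  have hlen := ((P1c T (m + m) q q' hN y1 l1 y2 l2 hc1 hc2 σ i (by omega)).1 hb).symm.trans h1
  have hle := hc1.mono _ _ (vtx_mono σ (Nat.le_succ i))
  have e : pl T q l1 l2 (vtx σ (i + 1)) =
      T.ls (l1 (vtx σ (i + 1))) (l2 (fun k => vtx σ i (q + k))) := by
    unfold pl
    rw [hst]
  rw [e]
  exact ⟨T.A1 _ _ _ _ _ _ _ (hc1.gm _) (hc1.gm _) (hc2.gm _) (hc2.gm _) (hc1.pm _) (hc1.pm _)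
    hle hlen (hc2.pm _),
    T.B1 _ _ _ _ _ _ _ (hc1.gm _) (hc1.gm _) (hc2.gm _) (hc2.gm _) (hc1.pm _) (hc1.pm _)
    hle hlen (hc2.pm _)⟩

/-- letter of the second block -/
theorem P3b (hb : ¬ blk q σ i) :
    D.A (py T q y1 y2 (vtx σ (m + i))) (py T q y1 y2 (vtx σ (m + i + 1)))
        (pl T q l1 l2 (vtx σ i)) (pl T q l1 l2 (vtx σ (i + 1))) =
      D2.A (y2 (fun k => vtx σ (m + i) (q + k))) (y2 (fun k => vtx σ (m + i + 1) (q + k)))
        (l2 (fun k => vtx σ i (q + k))) (l2 (fun k => vtx σ (i + 1) (q + k))) ∧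
    D.B (py T q y1 y2 (vtx σ (m + i))) (py T q y1 y2 (vtx σ (m + i + 1)))
        (pl T q l1 l2 (vtx σ i)) (pl T q l1 l2 (vtx σ (i + 1))) =
      D2.B (y2 (fun k => vtx σ (m + i) (q + k))) (y2 (fun k => vtx σ (m + i + 1) (q + k)))
        (l2 (fun k => vtx σ i (q + k))) (l2 (fun k => vtx σ (i + 1) (q + k))) := by
  have hst : l1 (vtx σ (i + 1)) = l1 (vtx σ i) :=
    hc1.depl _ _ (fun k hk => P1b q σ i (by omega) hb k hk)
  have hlen := ((P1c T (m + m) q q' hN y1 l1 y2 l2 hc1 hc2 σ i (by omega)).2 hb).symm.trans h1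
  have hle := hc2.mono (fun k => vtx σ i (q + k)) (fun k => vtx σ (i + 1) (q + k))
    (fun k => vtx_mono σ (Nat.le_succ i) (q + k))
  have e : pl T q l1 l2 (vtx σ (i + 1)) =
      T.ls (l1 (vtx σ i)) (l2 (fun k => vtx σ (i + 1) (q + k))) := by
    unfold pl
    rw [hst]
  rw [e]
  exact ⟨T.A2 _ _ _ _ _ _ _ (hc1.gm _) (hc1.gm _) (hc2.gm _) (hc2.gm _) (hc1.pm _) (hc2.pm _)
    (hc2.pm _) hle hlen,
    T.B2 _ _ _ _ _ _ _ (hc1.gm _) (hc1.gm _) (hc2.gm _) (hc2.gm _) (hc1.pm _) (hc2.pm _)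
    (hc2.pm _) hle hlen⟩

/-- if the front step `i` and the back step `m + i` are in different blocks the letter is zero -/
theorem P3c (hb : ¬ (blk q σ (m + i) ↔ blk q σ i)) :
    D.A (py T q y1 y2 (vtx σ (m + i))) (py T q y1 y2 (vtx σ (m + i + 1)))
        (pl T q l1 l2 (vtx σ i)) (pl T q l1 l2 (vtx σ (i + 1))) = 0 ∧
    D.B (py T q y1 y2 (vtx σ (m + i))) (py T q y1 y2 (vtx σ (m + i + 1)))
        (pl T q l1 l2 (vtx σ i)) (pl T q l1 l2 (vtx σ (i + 1))) = 0 := by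
  by_cases hi2 : blk q σ i
  · have hn : ¬ blk q σ (m + i) := fun h => hb ⟨fun _ => hi2, fun _ => h⟩
    obtain ⟨ha, hb'⟩ := P3a T m q q' hN y1 l1 y2 l2 hc1 hc2 σ i hi h1 hi2
    have hst : y1 (vtx σ (m + i + 1)) = y1 (vtx σ (m + i)) :=
      hc1.depy _ _ (fun k hk => P1b q σ (m + i) (by omega) hn k hk)
    have hlen := ((P1c T (m + m) q q' hN y1 l1 y2 l2 hc1 hc2 σ i (by omega)).1 hi2).symm.trans h1
    have hle := hc1.mono _ _ (vtx_mono σ (Nat.le_succ i))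
    rw [ha, hb', hst]
    exact ⟨D1.A_self _ _ _ (hc1.gm _) (hc1.pm _) (hc1.pm _) hle hlen,
      D1.B_self _ _ _ (hc1.gm _) (hc1.pm _) (hc1.pm _) hle hlen⟩
  · have hn : blk q σ (m + i) := by
      by_contra h
      exact hb ⟨fun h' => absurd h' h, fun h' => absurd h' hi2⟩
    obtain ⟨ha, hb'⟩ := P3b T m q q' hN y1 l1 y2 l2 hc1 hc2 σ i hi h1 hi2
    have hst := P1a q σ (m + i) (by omega) hn
    have hlen := ((P1c T (m + m) q q' hN y1 l1 y2 l2 hc1 hc2 σ i (by omega)).2 hi2).symm.trans h1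
    have hle := hc2.mono (fun k => vtx σ i (q + k)) (fun k => vtx σ (i + 1) (q + k))
      (fun k => vtx_mono σ (Nat.le_succ i) (q + k))
    rw [ha, hb', hst]
    exact ⟨D2.A_self _ _ _ (hc2.gm _) (hc2.pm _) (hc2.pm _) hle hlen,
      D2.B_self _ _ _ (hc2.gm _) (hc2.pm _) (hc2.pm _) hle hlen⟩

end

end ST82
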