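import Pool.Agent.LibST82.P2
import Pool.Agent.LibST82.P3

set_option autoImplicit false

namespace ST82

variable {G P G1 P1 G2 P2 : Type*} {D1 : Datum G1 P1} {D2 : Datum G2 P2} {D : Datum G P}

theorem P4 (T : Block D1 D2 D) (m q q' : ℕ) (hN : q + q' = m + m) (hrk : D1.rk + D2.rk = m + m)
    (y1 : (ℕ → Bool) → G1) (l1 : (ℕ → Bool) → P1) (y2 : (ℕ → Bool) → G2) (l2 : (ℕ → Bool) → P2)
    (hc1 : IsCube D1 q y1 l1) (hc2 : IsCube D2 q' y2 l2) (σ : Equiv.Perm (Fin (m + m)))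
    (hne : sp D m (fun t => py T q y1 y2 (vtx σ t)) (fun t => pl T q l1 l2 (vtx σ t)) ≠ 0) :
    ∃ m1, D1.rk = 2 * m1 ∧ ∃ K ∈ (Finset.range m).powersetCard m1, Pat q m σ K := by
  classical
  have hfr : ∀ i < m, D.len (pl T q l1 l2 (vtx σ i)) (pl T q l1 l2 (vtx σ (i + 1))) = 1 := by
    by_contra hcon
    exact hne (if_neg hcon)
  have h2 := P2t T m q q' hN hrk y1 l1 y2 l2 hc1 hc2 σ hfr
  refine ⟨((Finset.range m).filter (fun i => blk q σ i)).card, h2.symm,
    (Finset.range m).filter (fun i => blk q σ i), ?_, ?_⟩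
  · rw [Finset.mem_powersetCard]
    exact ⟨Finset.filter_subset _ _, by congr⟩
  · intro i hi
    have hK : i ∈ (Finset.range m).filter (fun i => blk q σ i) ↔ blk q σ i := by
      rw [Finset.mem_filter, Finset.mem_range]
      exact ⟨fun h => h.2, fun h => ⟨hi, h⟩⟩
    refine ⟨hK.symm, ?_⟩
    rw [hK]
    by_contra hcon
    obtain ⟨hA, hB⟩ := P3c T m q q' hN y1 l1 y2 l2 hc1 hc2 σ i hi (hfr i hi) hcon
    apply hne
    unfold sp
    rw [if_pos hfr]
    exact kap_zero m _ _ i hi hA hB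

end ST82
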