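import Pool.Agent.LibST82.K4

set_option autoImplicit false

/-!
ROW P5 (SHORT/MEDIUM).  The doubled permutation exists.  PLAN: r : Perm (Fin m) from rho (injective by K4f, range by
K4e: `Equiv.ofBijective` with `Finite.injective_iff_bijective`); R = (finSumFinEquiv : Fin m ⊕ Fin m ≃ Fin (m+m))
conjugate of `Equiv.sumCongr r r`; sign = sign r * sign r = 1 (`Equiv.Perm.sign_sumCongr`,
`Equiv.Perm.sign_symm_trans_trans` / `sign_permCongr`, `Int.units_mul_self`).
-/

namespace ST82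

theorem P5 (m m1 : ℕ) (K : Finset ℕ) (hK : K ∈ (Finset.range m).powersetCard m1) :
    ∃ R : Equiv.Perm (Fin (m + m)), IsDbl m m1 K R := by
  have hinj : Function.Injective
      (fun i : Fin m => (⟨rho m1 K i, K4e m m1 K hK i i.2⟩ : Fin m)) := by
    intro i j h
    exact Fin.ext (K4f m m1 K hK i j i.2 j.2 (congrArg Fin.val h))
  obtain ⟨r, hr⟩ : ∃ r : Equiv.Perm (Fin m), ∀ i : Fin m, (r i : ℕ) = rho m1 K i :=
    ⟨Equiv.ofBijective _ (Finite.injective_iff_bijective.1 hinj), fun i => rfl⟩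
  refine ⟨(finSumFinEquiv : Fin m ⊕ Fin m ≃ Fin (m + m)).permCongr (Equiv.Perm.sumCongr r r),
    fun t ht => ?_, fun t ht => ?_, ?_⟩
  · have h1 : (⟨t, by omega⟩ : Fin (m + m)) = Fin.castAdd m ⟨t, ht⟩ := rfl
    rw [h1, Equiv.permCongr_apply, finSumFinEquiv_symm_apply_castAdd, Equiv.Perm.sumCongr_apply,
      Sum.map_inl, finSumFinEquiv_apply_left, Fin.val_castAdd]
    exact hr _
  · have h1 : (⟨m + t, by omega⟩ : Fin (m + m)) = Fin.natAdd m ⟨t, ht⟩ := rfl
    rw [h1, Equiv.permCongr_apply, finSumFinEquiv_symm_apply_natAdd, Equiv.Perm.sumCongr_apply,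
      Sum.map_inr, finSumFinEquiv_apply_right, Fin.val_natAdd]
    exact congrArg (m + ·) (hr _)
  · rw [Equiv.Perm.sign_permCongr, Equiv.Perm.sign_sumCongr, Int.units_mul_self]

end ST82
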