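import Pool.Agent.LibST82.K4

set_option autoImplicit false

/-!
ROW P6 (MEDIUM).  Vertices of the shuffled path.  σ0 has the pattern range m1 (first block first) in both halves,
σ = σ0 * R with R doubled shuffle for K.  For i < m, j = rho m1 K i:
if i ∈ K (j < m1) the FIRST-block coordinates (k < q) of the vertices of σ at the times i, i+1, m+i, m+i+1 are
those of σ0 at j, j+1, m+j, m+j+1; if i ∉ K (j >= m1) the same for the SECOND-block coordinates (q <= k).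
PLAN: for k < m + m let t0 = σ0.symm k; σ.symm k = R.symm t0.  If k < q then blk q σ0 t0, so by Pat t0 < m1 or
m <= t0 < m + m1.  If t0 = rho (x) with x ∈ K, x < m: R.symm t0 = x and x < i iff rho x < rho i = j,
x < i + 1 iff rho x < j + 1 (K4c, K4f); if t0 = m + rho x: R.symm t0 = m + x, not < i, i+1; for the times m+i,
m+i+1: x < m+i always, j < m; m + x < m + i iff x < i iff rho x < j, etc.  (existence of x: surjectivity of R;
x ∈ K by K4a, K4b since rho x < m1).  Second block: the same with K4d.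
-/

namespace ST82

private theorem P6_lt (m m1 : ℕ) (K : Finset ℕ) (hK : K ∈ (Finset.range m).powersetCard m1)
    (x i : ℕ) (hx : x < m) (hi : i < m) (h : x ∈ K ↔ i ∈ K) :
    x < i ↔ rho m1 K x < rho m1 K i := by
  have key : ∀ x i : ℕ, x < m → i < m → (x ∈ K ↔ i ∈ K) → x < i → rho m1 K x < rho m1 K i := by
    intro x i hx hi h hlt
    by_cases hiK : i ∈ K
    · exact K4c m m1 K hK x i (h.2 hiK) hiK hlt
    · exact K4d m m1 K hK x i (fun h' => hiK (h.1 h')) hiK hi hlt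
  constructor
  · exact key x i hx hi h
  · intro h1
    by_contra h2
    rcases Nat.lt_or_ge i x with h3 | h3
    · have := key i x hi hx h.symm h3
      omega
    · have h4 : x = i := by omega
      rw [h4] at h1
      exact lt_irrefl _ h1

private theorem P6_main (m m1 : ℕ) (K : Finset ℕ) (hK : K ∈ (Finset.range m).powersetCard m1)
    (R : Equiv.Perm (Fin (m + m))) (hR : IsDbl m m1 K R) (i : ℕ) (hi : i < m)
    (t0 : Fin (m + m))
    (hcl : ∀ x, x < m → ((R.symm t0 : ℕ) = x ∨ (R.symm t0 : ℕ) = m + x) →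
      ((t0 : ℕ) = rho m1 K x ∨ (t0 : ℕ) = m + rho m1 K x) → (x ∈ K ↔ i ∈ K)) :
    (((R.symm t0 : ℕ) < i) ↔ ((t0 : ℕ) < rho m1 K i)) ∧
    (((R.symm t0 : ℕ) < i + 1) ↔ ((t0 : ℕ) < rho m1 K i + 1)) ∧
    (((R.symm t0 : ℕ) < m + i) ↔ ((t0 : ℕ) < m + rho m1 K i)) ∧
    (((R.symm t0 : ℕ) < m + i + 1) ↔ ((t0 : ℕ) < m + rho m1 K i + 1)) := by
  have hri := K4e m m1 K hK i hi
  obtain ⟨s, hs⟩ : ∃ s, R.symm t0 = s := ⟨_, rfl⟩
  have ht : t0 = R s := by rw [← hs, Equiv.apply_symm_apply]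
  rw [hs] at hcl ⊢
  rcases Nat.lt_or_ge (s : ℕ) m with h1 | h1
  · have h2 : (t0 : ℕ) = rho m1 K s := by
      rw [ht]
      exact hR.1 s h1
    have h3 := hcl s h1 (Or.inl rfl) (Or.inl h2)
    have h4 := P6_lt m m1 K hK s i h1 hi h3
    have h5 := P6_lt m m1 K hK i s hi h1 h3.symm
    have h6 := K4e m m1 K hK s h1
    refine ⟨?_, ?_, ?_, ?_⟩ <;> omega
  · have hlt := s.2
    obtain ⟨x, hx⟩ : ∃ x, (s : ℕ) = m + x := ⟨s - m, by omega⟩
    have hxm : x < m := by omega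
    have h2 : (t0 : ℕ) = m + rho m1 K x := by
      rw [ht]
      have h3 := hR.2.1 x hxm
      have h4 : s = ⟨m + x, by omega⟩ := Fin.ext hx
      rw [h4]
      exact h3
    have h3 := hcl x hxm (Or.inr hx) (Or.inr h2)
    have h4 := P6_lt m m1 K hK x i hxm hi h3
    have h5 := P6_lt m m1 K hK i x hi hxm h3.symm
    have h6 := K4e m m1 K hK x hxm
    refine ⟨?_, ?_, ?_, ?_⟩ <;> omega

private theorem P6_vtx (m m1 : ℕ) (K : Finset ℕ) (hK : K ∈ (Finset.range m).powersetCard m1)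
    (R σ0 : Equiv.Perm (Fin (m + m))) (hR : IsDbl m m1 K R) (i : ℕ) (hi : i < m)
    (k : ℕ) (hk : k < m + m)
    (hcl : ∀ x, x < m → ((σ0.symm ⟨k, hk⟩ : ℕ) = rho m1 K x ∨
      (σ0.symm ⟨k, hk⟩ : ℕ) = m + rho m1 K x) → (x ∈ K ↔ i ∈ K)) :
    vtx (σ0 * R) i k = vtx σ0 (rho m1 K i) k ∧
    vtx (σ0 * R) (i + 1) k = vtx σ0 (rho m1 K i + 1) k ∧
    vtx (σ0 * R) (m + i) k = vtx σ0 (m + rho m1 K i) k ∧
    vtx (σ0 * R) (m + i + 1) k = vtx σ0 (m + rho m1 K i + 1) k := by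
  have h := P6_main m m1 K hK R hR i hi (σ0.symm ⟨k, hk⟩) (fun x hx _ h2 => hcl x hx h2)
  have e : (σ0 * R).symm ⟨k, hk⟩ = R.symm (σ0.symm ⟨k, hk⟩) := rfl
  rw [vtx_lt _ _ _ hk, vtx_lt _ _ _ hk, vtx_lt _ _ _ hk, vtx_lt _ _ _ hk, vtx_lt _ _ _ hk,
    vtx_lt _ _ _ hk, vtx_lt _ _ _ hk, vtx_lt _ _ _ hk, e]
  exact ⟨decide_eq_decide.2 h.1, decide_eq_decide.2 h.2.1, decide_eq_decide.2 h.2.2.1,
    decide_eq_decide.2 h.2.2.2⟩

private theorem P6_iff (m m1 : ℕ) (K : Finset ℕ) (hK : K ∈ (Finset.range m).powersetCard m1)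
    (x : ℕ) (hx : x < m) : rho m1 K x ∈ Finset.range m1 ↔ x ∈ K := by
  rw [Finset.mem_range]
  constructor
  · intro h
    by_contra h1
    have := (K4b m m1 K hK x hx h1).1
    omega
  · intro h
    exact K4a m m1 K hK x h

private theorem P6_cls (m m1 q : ℕ) (K : Finset ℕ) (hK : K ∈ (Finset.range m).powersetCard m1)
    (σ0 : Equiv.Perm (Fin (m + m))) (h0 : Pat q m σ0 (Finset.range m1))
    (k : ℕ) (hk : k < m + m) (x : ℕ) (hx : x < m)
    (h : (σ0.symm ⟨k, hk⟩ : ℕ) = rho m1 K x ∨ (σ0.symm ⟨k, hk⟩ : ℕ) = m + rho m1 K x) :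
    x ∈ K ↔ k < q := by
  have hr := K4e m m1 K hK x hx
  have h1 := h0 (rho m1 K x) hr
  rw [P6_iff m m1 K hK x hx] at h1
  have hb : blk q σ0 (σ0.symm ⟨k, hk⟩ : ℕ) ↔ k < q := by
    have e : σ0 ⟨(σ0.symm ⟨k, hk⟩ : ℕ), (σ0.symm ⟨k, hk⟩).2⟩ = ⟨k, hk⟩ :=
      Equiv.apply_symm_apply σ0 _
    constructor
    · rintro ⟨h2, h3⟩
      rw [e] at h3
      exact h3
    · intro h2
      refine ⟨(σ0.symm ⟨k, hk⟩).2, ?_⟩
      rw [e]
      exact h2
  rcases h with h | h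
  · rw [h] at hb
    exact h1.1.symm.trans hb
  · rw [h] at hb
    exact h1.2.symm.trans hb

variable (m m1 q : ℕ) (K : Finset ℕ) (hK : K ∈ (Finset.range m).powersetCard m1)
  (R σ0 : Equiv.Perm (Fin (m + m))) (hR : IsDbl m m1 K R) (h0 : Pat q m σ0 (Finset.range m1))
  (i : ℕ) (hi : i < m)

include hK hR h0 hi

theorem P6a (hiK : i ∈ K) (k : ℕ) (hk : k < q) (hk' : k < m + m) :
    vtx (σ0 * R) i k = vtx σ0 (rho m1 K i) k ∧
    vtx (σ0 * R) (i + 1) k = vtx σ0 (rho m1 K i + 1) k ∧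
    vtx (σ0 * R) (m + i) k = vtx σ0 (m + rho m1 K i) k ∧
    vtx (σ0 * R) (m + i + 1) k = vtx σ0 (m + rho m1 K i + 1) k :=
  P6_vtx m m1 K hK R σ0 hR i hi k hk' fun x hx h =>
    (P6_cls m m1 q K hK σ0 h0 k hk' x hx h).trans ⟨fun _ => hiK, fun _ => hk⟩

theorem P6b (hiK : i ∉ K) (k : ℕ) (hk : q ≤ k) :
    vtx (σ0 * R) i k = vtx σ0 (rho m1 K i) k ∧
    vtx (σ0 * R) (i + 1) k = vtx σ0 (rho m1 K i + 1) k ∧
    vtx (σ0 * R) (m + i) k = vtx σ0 (m + rho m1 K i) k ∧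
    vtx (σ0 * R) (m + i + 1) k = vtx σ0 (m + rho m1 K i + 1) k := by
  by_cases hk' : k < m + m
  · refine P6_vtx m m1 K hK R σ0 hR i hi k hk' fun x hx h => ?_
    refine (P6_cls m m1 q K hK σ0 h0 k hk' x hx h).trans ⟨fun h1 => ?_, fun h1 => absurd h1 hiK⟩
    omega
  · rw [vtx_ge _ _ _ hk', vtx_ge _ _ _ hk', vtx_ge _ _ _ hk', vtx_ge _ _ _ hk', vtx_ge _ _ _ hk',
      vtx_ge _ _ _ hk', vtx_ge _ _ _ hk', vtx_ge _ _ _ hk']
    exact ⟨rfl, rfl, rfl, rfl⟩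

/-- the pattern of the shuffled path -/
theorem P6c : (blk q (σ0 * R) i ↔ i ∈ K) ∧ (blk q (σ0 * R) (m + i) ↔ i ∈ K) := by
  have hr := K4e m m1 K hK i hi
  have h1 := h0 (rho m1 K i) hr
  rw [P6_iff m m1 K hK i hi] at h1
  have e1 : R ⟨i, by omega⟩ = ⟨rho m1 K i, by omega⟩ := Fin.ext (hR.1 i hi)
  have e2 : R ⟨m + i, by omega⟩ = ⟨m + rho m1 K i, by omega⟩ := Fin.ext (hR.2.1 i hi)
  constructor
  · rw [← h1.1]
    constructor
    · rintro ⟨h2, h3⟩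
      rw [Equiv.Perm.mul_apply, e1] at h3
      exact ⟨_, h3⟩
    · rintro ⟨h2, h3⟩
      refine ⟨by omega, ?_⟩
      rw [Equiv.Perm.mul_apply, e1]
      exact h3
  · rw [← h1.2]
    constructor
    · rintro ⟨h2, h3⟩
      rw [Equiv.Perm.mul_apply, e2] at h3
      exact ⟨_, h3⟩
    · rintro ⟨h2, h3⟩
      refine ⟨by omega, ?_⟩
      rw [Equiv.Perm.mul_apply, e2]
      exact h3

end ST82
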