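import Pool.Agent.LibST82.P3
import Pool.Agent.LibST82.P6

set_option autoImplicit false

/-!
ROW P7 (MEDIUM).  `sp` of the shuffled path.  PLAN: write len0 j, A0 j, B0 j for the length and the letters of σ0
(total product cube).  For every i < m, j = rho m1 K i: len of σ = σ0 * R at i equals len0 j: if i ∈ K both are
len1 of the first block (P1c for σ: blk by P6c; P1c for σ0: blk because j < m1 and h0), equal by P6a and depl; if
i ∉ K the same with P6b.  So the front condition for σ is the one for σ0 (rho permutes range m: K4e, K4f +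
surjectivity `Finset.surj_on_of_inj_on_of_card_le` / Finite.injective_iff_surjective).  If it holds, the letters
agree: P3a (P3b) for σ and for σ0 and P6a (P6b) with depy, depl.
-/

namespace ST82

variable {G P G1 P1 G2 P2 : Type*} {D1 : Datum G1 P1} {D2 : Datum G2 P2} {D : Datum G P}

private theorem P7_surj (m m1 : ℕ) (K : Finset ℕ) (hK : K ∈ (Finset.range m).powersetCard m1)
    (j : ℕ) (hj : j < m) : ∃ i < m, rho m1 K i = j := by
  have hinj : Function.Injective (fun i : Fin m => (⟨rho m1 K i, K4e m m1 K hK i i.2⟩ : Fin m)) := by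
    intro x y h
    exact Fin.ext (K4f m m1 K hK x y x.2 y.2 (congrArg (fun z : Fin m => (z : ℕ)) h))
  obtain ⟨i, hi⟩ := Finite.injective_iff_surjective.1 hinj ⟨j, hj⟩
  exact ⟨i, i.2, congrArg (fun z : Fin m => (z : ℕ)) hi⟩

private theorem P7_blk (m q m1 : ℕ) (K : Finset ℕ) (hK : K ∈ (Finset.range m).powersetCard m1)
    (σ0 : Equiv.Perm (Fin (m + m))) (h0 : Pat q m σ0 (Finset.range m1)) (i : ℕ) (hi : i < m) :
    blk q σ0 (rho m1 K i) ↔ i ∈ K := by
  have hj := K4e m m1 K hK i hi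
  rw [(h0 _ hj).1, Finset.mem_range]
  constructor
  · intro h
    by_contra hiK
    have := (K4b m m1 K hK i hi hiK).1
    omega
  · intro h
    exact K4a m m1 K hK i h

theorem P7 (T : Block D1 D2 D) (m q q' : ℕ) (hN : q + q' = m + m)
    (y1 : (ℕ → Bool) → G1) (l1 : (ℕ → Bool) → P1) (y2 : (ℕ → Bool) → G2) (l2 : (ℕ → Bool) → P2)
    (hc1 : IsCube D1 q y1 l1) (hc2 : IsCube D2 q' y2 l2)
    (m1 : ℕ) (K : Finset ℕ) (hK : K ∈ (Finset.range m).powersetCard m1)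
    (R σ0 : Equiv.Perm (Fin (m + m))) (hR : IsDbl m m1 K R) (h0 : Pat q m σ0 (Finset.range m1)) :
    sp D m (fun t => py T q y1 y2 (vtx (σ0 * R) t)) (fun t => pl T q l1 l2 (vtx (σ0 * R) t)) =
      if ∀ j < m, D.len (pl T q l1 l2 (vtx σ0 j)) (pl T q l1 l2 (vtx σ0 (j + 1))) = 1 then
        kap m
          (fun i => (fun j => D.A (py T q y1 y2 (vtx σ0 (m + j))) (py T q y1 y2 (vtx σ0 (m + j + 1)))
            (pl T q l1 l2 (vtx σ0 j)) (pl T q l1 l2 (vtx σ0 (j + 1)))) (rho m1 K i))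
          (fun i => (fun j => D.B (py T q y1 y2 (vtx σ0 (m + j))) (py T q y1 y2 (vtx σ0 (m + j + 1)))
            (pl T q l1 l2 (vtx σ0 j)) (pl T q l1 l2 (vtx σ0 (j + 1)))) (rho m1 K i))
      else 0 := by
  set σ : Equiv.Perm (Fin (m + m)) := σ0 * R with hσ
  have hP6c : ∀ i < m, (blk q σ i ↔ i ∈ K) := fun i hi =>
    (P6c m m1 q K hK R σ0 hR h0 i hi).1
  have hqm : q ≤ m + m := by omega
  -- agreement of the cubes on the first block
  have hl1 : ∀ i < m, i ∈ K → l1 (vtx σ i) = l1 (vtx σ0 (rho m1 K i)) ∧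
      l1 (vtx σ (i + 1)) = l1 (vtx σ0 (rho m1 K i + 1)) ∧
      y1 (vtx σ (m + i)) = y1 (vtx σ0 (m + rho m1 K i)) ∧
      y1 (vtx σ (m + i + 1)) = y1 (vtx σ0 (m + rho m1 K i + 1)) := by
    intro i hi hiK
    refine ⟨hc1.depl _ _ fun k hk => ?_, hc1.depl _ _ fun k hk => ?_,
      hc1.depy _ _ fun k hk => ?_, hc1.depy _ _ fun k hk => ?_⟩
    · exact (P6a m m1 q K hK R σ0 hR h0 i hi hiK k hk (by omega)).1
    · exact (P6a m m1 q K hK R σ0 hR h0 i hi hiK k hk (by omega)).2.1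
    · exact (P6a m m1 q K hK R σ0 hR h0 i hi hiK k hk (by omega)).2.2.1
    · exact (P6a m m1 q K hK R σ0 hR h0 i hi hiK k hk (by omega)).2.2.2
  -- agreement on the second block
  have hl2 : ∀ i < m, i ∉ K →
      (fun k => vtx σ i (q + k)) = (fun k => vtx σ0 (rho m1 K i) (q + k)) ∧
      (fun k => vtx σ (i + 1) (q + k)) = (fun k => vtx σ0 (rho m1 K i + 1) (q + k)) ∧
      (fun k => vtx σ (m + i) (q + k)) = (fun k => vtx σ0 (m + rho m1 K i) (q + k)) ∧
      (fun k => vtx σ (m + i + 1) (q + k)) = (fun k => vtx σ0 (m + rho m1 K i + 1) (q + k)) := by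
    intro i hi hiK
    refine ⟨funext fun k => ?_, funext fun k => ?_, funext fun k => ?_, funext fun k => ?_⟩
    · exact (P6b m m1 q K hK R σ0 hR h0 i hi hiK (q + k) (by omega)).1
    · exact (P6b m m1 q K hK R σ0 hR h0 i hi hiK (q + k) (by omega)).2.1
    · exact (P6b m m1 q K hK R σ0 hR h0 i hi hiK (q + k) (by omega)).2.2.1
    · exact (P6b m m1 q K hK R σ0 hR h0 i hi hiK (q + k) (by omega)).2.2.2
  have hlen : ∀ i < m, D.len (pl T q l1 l2 (vtx σ i)) (pl T q l1 l2 (vtx σ (i + 1))) =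
      D.len (pl T q l1 l2 (vtx σ0 (rho m1 K i))) (pl T q l1 l2 (vtx σ0 (rho m1 K i + 1))) := by
    intro i hi
    have hj := K4e m m1 K hK i hi
    by_cases hiK : i ∈ K
    · rw [(P1c T (m + m) q q' hN y1 l1 y2 l2 hc1 hc2 σ i (by omega)).1 ((hP6c i hi).2 hiK),
        (P1c T (m + m) q q' hN y1 l1 y2 l2 hc1 hc2 σ0 (rho m1 K i) (by omega)).1
          ((P7_blk m q m1 K hK σ0 h0 i hi).2 hiK),
        (hl1 i hi hiK).1, (hl1 i hi hiK).2.1]
    · rw [(P1c T (m + m) q q' hN y1 l1 y2 l2 hc1 hc2 σ i (by omega)).2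
          (fun h => hiK ((hP6c i hi).1 h)),
        (P1c T (m + m) q q' hN y1 l1 y2 l2 hc1 hc2 σ0 (rho m1 K i) (by omega)).2
          (fun h => hiK ((P7_blk m q m1 K hK σ0 h0 i hi).1 h)),
        (hl2 i hi hiK).1, (hl2 i hi hiK).2.1]
  have hiff : (∀ i < m, D.len (pl T q l1 l2 (vtx σ i)) (pl T q l1 l2 (vtx σ (i + 1))) = 1) ↔
      ∀ j < m, D.len (pl T q l1 l2 (vtx σ0 j)) (pl T q l1 l2 (vtx σ0 (j + 1))) = 1 := by
    constructor
    · intro h j hj
      obtain ⟨i, hi, rfl⟩ := P7_surj m m1 K hK j hj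
      rw [← hlen i hi]
      exact h i hi
    · intro h i hi
      rw [hlen i hi]
      exact h _ (K4e m m1 K hK i hi)
  have hlet : (∀ i < m, D.len (pl T q l1 l2 (vtx σ i)) (pl T q l1 l2 (vtx σ (i + 1))) = 1) →
      ∀ i < m,
      D.A (py T q y1 y2 (vtx σ (m + i))) (py T q y1 y2 (vtx σ (m + i + 1)))
          (pl T q l1 l2 (vtx σ i)) (pl T q l1 l2 (vtx σ (i + 1))) =
        D.A (py T q y1 y2 (vtx σ0 (m + rho m1 K i))) (py T q y1 y2 (vtx σ0 (m + rho m1 K i + 1)))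
          (pl T q l1 l2 (vtx σ0 (rho m1 K i))) (pl T q l1 l2 (vtx σ0 (rho m1 K i + 1))) ∧
      D.B (py T q y1 y2 (vtx σ (m + i))) (py T q y1 y2 (vtx σ (m + i + 1)))
          (pl T q l1 l2 (vtx σ i)) (pl T q l1 l2 (vtx σ (i + 1))) =
        D.B (py T q y1 y2 (vtx σ0 (m + rho m1 K i))) (py T q y1 y2 (vtx σ0 (m + rho m1 K i + 1)))
          (pl T q l1 l2 (vtx σ0 (rho m1 K i))) (pl T q l1 l2 (vtx σ0 (rho m1 K i + 1))) := by
    intro h i hi
    have hj := K4e m m1 K hK i hi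
    have h1 := h i hi
    have h1' := hiff.1 h _ hj
    by_cases hiK : i ∈ K
    · have e1 := P3a T m q q' hN y1 l1 y2 l2 hc1 hc2 σ i hi h1 ((hP6c i hi).2 hiK)
      have e2 := P3a T m q q' hN y1 l1 y2 l2 hc1 hc2 σ0 (rho m1 K i) hj h1'
        ((P7_blk m q m1 K hK σ0 h0 i hi).2 hiK)
      obtain ⟨g1, g2, g3, g4⟩ := hl1 i hi hiK
      rw [e1.1, e1.2, e2.1, e2.2, g1, g2, g3, g4]
      exact ⟨rfl, rfl⟩
    · have e1 := P3b T m q q' hN y1 l1 y2 l2 hc1 hc2 σ i hi h1 (fun h => hiK ((hP6c i hi).1 h))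
      have e2 := P3b T m q q' hN y1 l1 y2 l2 hc1 hc2 σ0 (rho m1 K i) hj h1'
        (fun h => hiK ((P7_blk m q m1 K hK σ0 h0 i hi).1 h))
      obtain ⟨g1, g2, g3, g4⟩ := hl2 i hi hiK
      rw [e1.1, e1.2, e2.1, e2.2, g1, g2, g3, g4]
      exact ⟨rfl, rfl⟩
  unfold sp
  by_cases h : ∀ i < m, D.len (pl T q l1 l2 (vtx σ i)) (pl T q l1 l2 (vtx σ (i + 1))) = 1
  · rw [if_pos h, if_pos (hiff.1 h)]
    exact kap_congr m _ _ _ _ (fun i hi => (hlet h i hi).1) (fun i hi => (hlet h i hi).2)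
  · rw [if_neg h, if_neg (fun h' => h (hiff.2 h'))]

end ST82
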