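import Pool.Agent.LibST82.P6

set_option autoImplicit false

/-!
ROW P8 (MEDIUM).  Decomposition of the sum over the paths of the product by patterns.  PLAN: every σ has at most
one K ⊆ range m with Pat q m σ K (K = {i < m : blk q σ i}); f σ = 0 if there is none with m1 elements.  So
sum_σ sign σ f σ = sum_(K ∈ powersetCard) sum_σ [Pat σ K] sign σ f σ.  For fixed K reindex σ = σ0 * R K
(`Equiv.mulRight (R K)`): sign (σ0 * R K) = sign σ0, and Pat (σ0 * R K) K iff Pat σ0 (range m1): (<=) is P6c;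
(=>): blk q (σ0 * R K) i iff blk q σ0 (rho m1 K i) (since (σ0 * R K) i = σ0 (rho i)); rho permutes range m
and rho i < m1 iff i ∈ K (K4a, K4b).  Exchange the sums.
-/

namespace ST82

private theorem P8_surj {m m1 : ℕ} {K : Finset ℕ} {R : Equiv.Perm (Fin (m + m))}
    (hR : IsDbl m m1 K R) (j : ℕ) (hj : j < m) : ∃ i < m, rho m1 K i = j := by
  obtain ⟨h1, h2, -⟩ := hR
  have h3 : R (R.symm ⟨j, by omega⟩) = ⟨j, by omega⟩ := R.apply_symm_apply _
  rcases lt_or_ge ((R.symm ⟨j, by omega⟩ : Fin (m + m)) : ℕ) m with h | h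
  · refine ⟨_, h, ?_⟩
    rw [← h1 _ h]
    exact congrArg Fin.val h3
  · exfalso
    have h4 : ((R.symm ⟨j, by omega⟩ : Fin (m + m)) : ℕ) - m < m := by
      have := (R.symm ⟨j, by omega⟩ : Fin (m + m)).2
      omega
    have h5 := h2 _ h4
    have h6 : (⟨m + (((R.symm ⟨j, by omega⟩ : Fin (m + m)) : ℕ) - m), by omega⟩ : Fin (m + m)) =
        R.symm ⟨j, by omega⟩ := by
      apply Fin.ext
      simp only
      omega
    rw [h6, h3] at h5
    simp only at h5
    omega

private theorem P8_blk1 {m m1 q : ℕ} {K : Finset ℕ} {R : Equiv.Perm (Fin (m + m))}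
    (hR : IsDbl m m1 K R) (σ0 : Equiv.Perm (Fin (m + m))) (i : ℕ) (hi : i < m)
    (hr : rho m1 K i < m) : blk q (σ0 * R) i ↔ blk q σ0 (rho m1 K i) := by
  have h1 := hR.1 i hi
  have h2 : (⟨rho m1 K i, by omega⟩ : Fin (m + m)) = R ⟨i, by omega⟩ := Fin.ext h1.symm
  constructor
  · rintro ⟨h, h3⟩
    refine ⟨by omega, ?_⟩
    rw [h2]
    exact h3
  · rintro ⟨h, h3⟩
    refine ⟨by omega, ?_⟩
    rw [h2] at h3
    exact h3

private theorem P8_blk2 {m m1 q : ℕ} {K : Finset ℕ} {R : Equiv.Perm (Fin (m + m))}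
    (hR : IsDbl m m1 K R) (σ0 : Equiv.Perm (Fin (m + m))) (i : ℕ) (hi : i < m)
    (hr : rho m1 K i < m) : blk q (σ0 * R) (m + i) ↔ blk q σ0 (m + rho m1 K i) := by
  have h1 := hR.2.1 i hi
  have h2 : (⟨m + rho m1 K i, by omega⟩ : Fin (m + m)) = R ⟨m + i, by omega⟩ := Fin.ext h1.symm
  constructor
  · rintro ⟨h, h3⟩
    refine ⟨by omega, ?_⟩
    rw [h2]
    exact h3
  · rintro ⟨h, h3⟩
    refine ⟨by omega, ?_⟩
    rw [h2] at h3
    exact h3

private theorem P8_pat {m m1 q : ℕ} {K : Finset ℕ} (hK : K ∈ (Finset.range m).powersetCard m1)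
    {R : Equiv.Perm (Fin (m + m))} (hR : IsDbl m m1 K R) (σ0 : Equiv.Perm (Fin (m + m))) :
    Pat q m (σ0 * R) K ↔ Pat q m σ0 (Finset.range m1) := by
  constructor
  · intro h j hj
    obtain ⟨i, hi, rfl⟩ := P8_surj hR j hj
    obtain ⟨h1, h2⟩ := h i hi
    rw [P8_blk1 hR σ0 i hi hj] at h1
    rw [P8_blk2 hR σ0 i hi hj] at h2
    have h3 : i ∈ K ↔ rho m1 K i ∈ Finset.range m1 := by
      rw [Finset.mem_range]
      constructor
      · exact K4a m m1 K hK i
      · intro h4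
        by_contra h5
        have := (K4b m m1 K hK i hi h5).1
        omega
    rw [← h3]
    exact ⟨h1, h2⟩
  · intro h i hi
    exact P6c m m1 q K hK R σ0 hR h i hi

private theorem P8_uniq {m q m1 : ℕ} {σ : Equiv.Perm (Fin (m + m))} {K K' : Finset ℕ}
    (hK : K ∈ (Finset.range m).powersetCard m1) (hK' : K' ∈ (Finset.range m).powersetCard m1)
    (h : Pat q m σ K) (h' : Pat q m σ K') : K = K' := by
  have h1 := (Finset.mem_powersetCard.1 hK).1
  have h2 := (Finset.mem_powersetCard.1 hK').1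
  ext i
  constructor
  · intro hi
    have him := Finset.mem_range.1 (h1 hi)
    exact (h' i him).1.1 ((h i him).1.2 hi)
  · intro hi
    have him := Finset.mem_range.1 (h2 hi)
    exact (h i him).1.1 ((h' i him).1.2 hi)

open Finset Classical in
theorem P8 (m m1 q : ℕ) (R : Finset ℕ → Equiv.Perm (Fin (m + m)))
    (hR : ∀ K ∈ (range m).powersetCard m1, IsDbl m m1 K (R K))
    (f : Equiv.Perm (Fin (m + m)) → ℚ)
    (hf : ∀ σ, f σ ≠ 0 → ∃ K ∈ (range m).powersetCard m1, Pat q m σ K) :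
    ∑ σ : Equiv.Perm (Fin (m + m)), ((Equiv.Perm.sign σ : ℤ) : ℚ) * f σ =
      ∑ σ0 : Equiv.Perm (Fin (m + m)), if Pat q m σ0 (range m1) then
        ((Equiv.Perm.sign σ0 : ℤ) : ℚ) * ∑ K ∈ (range m).powersetCard m1, f (σ0 * R K) else 0 := by
  have h1 : ∀ σ : Equiv.Perm (Fin (m + m)), ((Equiv.Perm.sign σ : ℤ) : ℚ) * f σ =
      ∑ K ∈ (range m).powersetCard m1,
        if Pat q m σ K then ((Equiv.Perm.sign σ : ℤ) : ℚ) * f σ else 0 := by
    intro σ
    by_cases h0 : f σ = 0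
    · rw [h0, mul_zero]
      symm
      refine sum_eq_zero fun K _ => ?_
      split_ifs <;> rfl
    · obtain ⟨K, hK, hP⟩ := hf σ h0
      rw [sum_eq_single K]
      · rw [if_pos hP]
      · intro K' hK' hne
        rw [if_neg]
        exact fun hP' => hne (P8_uniq hK' hK hP' hP)
      · intro h2
        exact absurd hK h2
  have h2 : ∀ K ∈ (range m).powersetCard m1,
      (∑ σ : Equiv.Perm (Fin (m + m)),
        if Pat q m σ K then ((Equiv.Perm.sign σ : ℤ) : ℚ) * f σ else 0) =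
      ∑ σ0 : Equiv.Perm (Fin (m + m)), if Pat q m σ0 (range m1) then
        ((Equiv.Perm.sign σ0 : ℤ) : ℚ) * f (σ0 * R K) else 0 := by
    intro K hK
    rw [← Equiv.sum_comp (Equiv.mulRight (R K))]
    refine sum_congr rfl fun σ0 _ => ?_
    have h3 : (Equiv.mulRight (R K)) σ0 = σ0 * R K := rfl
    rw [h3]
    have h4 := P8_pat (q := q) hK (hR K hK) σ0
    have h5 : Equiv.Perm.sign (σ0 * R K) = Equiv.Perm.sign σ0 := by
      rw [Equiv.Perm.sign_mul, (hR K hK).2.2, mul_one]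
    by_cases h6 : Pat q m σ0 (range m1)
    · rw [if_pos (h4.2 h6), if_pos h6, h5]
    · rw [if_neg (fun h7 => h6 (h4.1 h7)), if_neg h6]
  rw [sum_congr rfl fun σ _ => h1 σ, sum_comm, sum_congr rfl h2, sum_comm]
  refine sum_congr rfl fun σ0 _ => ?_
  by_cases h6 : Pat q m σ0 (range m1)
  · simp only [if_pos h6]
    rw [mul_sum]
  · simp only [if_neg h6, sum_const_zero]

end ST82
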