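import Pool.Agent.LibST82.K5
import Pool.Agent.LibST82.P4
import Pool.Agent.LibST82.P5
import Pool.Agent.LibST82.P7
import Pool.Agent.LibST82.P8

set_option autoImplicit false

namespace ST82

variable {G P G1 P1 G2 P2 : Type*} {D1 : Datum G1 P1} {D2 : Datum G2 P2} {D : Datum G P}

theorem P9 (T : Block D1 D2 D) (m q q' : ℕ) (hN : q + q' = m + m) (hrk : D1.rk + D2.rk = m + m)
    (hr1 : 0 < D1.rk) (hr2 : 0 < D2.rk)
    (y1 : (ℕ → Bool) → G1) (l1 : (ℕ → Bool) → P1) (y2 : (ℕ → Bool) → G2) (l2 : (ℕ → Bool) → P2)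
    (hc1 : IsCube D1 q y1 l1) (hc2 : IsCube D2 q' y2 l2) :
    S D m (py T q y1 y2) (pl T q l1 l2) = 0 := by
  classical
  by_cases hex : ∃ σ : Equiv.Perm (Fin (m + m)),
      sp D m (fun t => py T q y1 y2 (vtx σ t)) (fun t => pl T q l1 l2 (vtx σ t)) ≠ 0
  · obtain ⟨σ1, hσ1⟩ := hex
    obtain ⟨m1, hm1, -⟩ := P4 T m q q' hN hrk y1 l1 y2 l2 hc1 hc2 σ1 hσ1
    have hR : ∀ K : Finset ℕ, ∃ R : Equiv.Perm (Fin (m + m)),
        K ∈ (Finset.range m).powersetCard m1 → IsDbl m m1 K R := by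
      intro K
      by_cases hK : K ∈ (Finset.range m).powersetCard m1
      · obtain ⟨R, hR⟩ := P5 m m1 K hK
        exact ⟨R, fun _ => hR⟩
      · exact ⟨1, fun h => absurd h hK⟩
    choose R hR using hR
    have h8 := P8 m m1 q R hR
      (fun σ => sp D m (fun t => py T q y1 y2 (vtx σ t)) (fun t => pl T q l1 l2 (vtx σ t)))
      (fun σ hσ => by
        obtain ⟨m1', hm1', K, hK, hP⟩ := P4 T m q q' hN hrk y1 l1 y2 l2 hc1 hc2 σ hσ
        have : m1' = m1 := by omega
        subst this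
        exact ⟨K, hK, hP⟩)
    unfold S
    rw [h8]
    apply Finset.sum_eq_zero
    intro σ0 _
    by_cases h0 : Pat q m σ0 (Finset.range m1)
    · rw [if_pos h0]
      have hsum : ∑ K ∈ (Finset.range m).powersetCard m1,
          sp D m (fun t => py T q y1 y2 (vtx (σ0 * R K) t))
            (fun t => pl T q l1 l2 (vtx (σ0 * R K) t)) = 0 := by
        by_cases hfr : ∀ j < m, D.len (pl T q l1 l2 (vtx σ0 j)) (pl T q l1 l2 (vtx σ0 (j + 1))) = 1
        · have h5 := K5 m m1 (by omega) (by omega)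
            (fun j => D.A (py T q y1 y2 (vtx σ0 (m + j))) (py T q y1 y2 (vtx σ0 (m + j + 1)))
              (pl T q l1 l2 (vtx σ0 j)) (pl T q l1 l2 (vtx σ0 (j + 1))))
            (fun j => D.B (py T q y1 y2 (vtx σ0 (m + j))) (py T q y1 y2 (vtx σ0 (m + j + 1)))
              (pl T q l1 l2 (vtx σ0 j)) (pl T q l1 l2 (vtx σ0 (j + 1))))
          rw [← h5]
          apply Finset.sum_congr rfl
          intro K hK
          rw [P7 T m q q' hN y1 l1 y2 l2 hc1 hc2 m1 K hK (R K) σ0 (hR K hK) h0, if_pos hfr]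
        · apply Finset.sum_eq_zero
          intro K hK
          rw [P7 T m q q' hN y1 l1 y2 l2 hc1 hc2 m1 K hK (R K) σ0 (hR K hK) h0, if_neg hfr]
      rw [hsum, mul_zero]
    · rw [if_neg h0]
  · push Not at hex
    unfold S
    apply Finset.sum_eq_zero
    intro σ _
    rw [hex σ, mul_zero]

end ST82
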