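import Pool.Agent.LibST82.G1
import Pool.Agent.LibST82.P9

set_option autoImplicit false

/-!
ROW G3 (SHORT).  `Fcb` kills products.  PLAN: if the rank is not m + m or the dimension not m + m it is 0 by
definition.  Otherwise P9 with T = Fm.T c.r c'.r, D1 = Fm.D c.r, D2 = Fm.D c'.r, D = Fm.D (c.r + c'.r),
q = c.q, q' = c'.q: `(c * c').y = ST82.py T c.q c.y c'.y` by T_gs (funext), `(c * c').l = ST82.pl ...` by T_ls;
ranks positive by r_pos; c.r + c'.r = m + m by substitution (`obtain`/`rw` : the datum is Fm.D (m + m) and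
(c * c').r = c.r + c'.r).
-/

noncomputable section

namespace St16

variable {G P : Type} [Group G] [Preorder P] [MulAction G P] {S : Sys G P}

theorem Fcb_mul (Fm : Fam S) (m : ℕ) (c c' : Cb S) : Fcb Fm m (c * c') = 0 := by
  unfold Fcb
  split_ifs with h
  · obtain ⟨hr, hq⟩ := h
    rw [Cb.mul_r] at hr
    rw [Cb.mul_q] at hq
    have h9 := ST82.P9 (Fm.T c.r c'.r) m c.q c'.q hq (by rw [Fm.rk, Fm.rk]; exact hr)
      (by rw [Fm.rk]; exact c.r_pos) (by rw [Fm.rk]; exact c'.r_pos) c.y c.l c'.y c'.l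
      (isCube_of Fm c) (isCube_of Fm c')
    have hD : Fm.D (m + m) = Fm.D (c.r + c'.r) := by rw [hr]
    have hy : (c * c').y = ST82.py (Fm.T c.r c'.r) c.q c.y c'.y := by
      funext v
      rw [Cb.mul_y]
      unfold ST82.py
      rw [Fm.T_gs]
    have hl : (c * c').l = ST82.pl (Fm.T c.r c'.r) c.q c.l c'.l := by
      funext v
      rw [Cb.mul_l]
      unfold ST82.pl
      rw [Fm.T_ls]
    rw [hD, hy, hl]
    exact h9
  · rfl

end St16
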