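import Pool.Agent.LibST82.G2
import Pool.Agent.LibST82.G3

set_option autoImplicit false

/-!
ROW G4 (SHORT).  `FF` kills boundaries.  PLAN: `Finsupp.induction_linear` / `Finsupp.lhom_ext` reduce to one list.
[]: BD1 = 0.  [c]: FF (mapDomain (fun x => [x]) (bd1 c)) = linearCombination (Fcb Fm m) (bd1 c) = 0 (G2).
c :: c' :: l: FF of mapDomain (fun x => x :: c' :: l) is 0 (lists of length >= 2 have Fls = 0); the merge term: if
l = [] it is Fcb (c * c') = 0 (G3), else a list of length >= 2; the last term: BD1 (c' :: l) contains no empty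
list, so c :: x has length >= 2.  For the last point first prove by induction: every list in the support of
BD1 l is nonempty (BD1_ne).
-/

noncomputable section

namespace St16

variable {G P : Type} [Group G] [Preorder P] [MulAction G P] {S : Sys G P}

private theorem G4_Fls_long (Fm : Fam S) (m : ℕ) (l : List (Cb S)) (hl : l.length ≠ 1) :
    Fls Fm m l = 0 := by
  match l, hl with
  | [], _ => rfl
  | [c], h => exact absurd rfl h
  | c :: c' :: l, _ => rfl

private theorem G4_map (Fm : Fam S) (m : ℕ) {α : Type} (g : α → List (Cb S)) (z : α →₀ ℚ)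
    (h : ∀ x ∈ z.support, (g x).length ≠ 1) : FF Fm m (Finsupp.mapDomain g z) = 0 := by
  unfold FF
  rw [Finsupp.linearCombination_mapDomain, Finsupp.linearCombination_apply, Finsupp.sum]
  refine Finset.sum_eq_zero fun x hx => ?_
  rw [Function.comp_apply, G4_Fls_long Fm m _ (h x hx), smul_zero]

private theorem G4_nil (l : List (Cb S)) : BD1 l [] = 0 := by
  match l with
  | [] => rfl
  | [c] =>
    show Finsupp.mapDomain (fun x => [x]) (bd1 c) [] = 0
    exact Finsupp.mapDomain_notin_range _ _ (by rintro ⟨x, hx⟩; exact List.cons_ne_nil _ _ hx)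
  | c :: c' :: l =>
    have h1 : Finsupp.mapDomain (fun x => x :: c' :: l) (bd1 c) [] = 0 :=
      Finsupp.mapDomain_notin_range _ _ (by rintro ⟨x, hx⟩; exact List.cons_ne_nil _ _ hx)
    have h2 : (Finsupp.single ((c * c') :: l) (1 : ℚ)) [] = 0 := by
      rw [Finsupp.single_apply, if_neg (List.cons_ne_nil _ _)]
    have h3 : Finsupp.mapDomain (fun x => c :: x) (BD1 (c' :: l)) [] = 0 :=
      Finsupp.mapDomain_notin_range _ _ (by rintro ⟨x, hx⟩; exact List.cons_ne_nil _ _ hx)
    show (Finsupp.mapDomain (fun x => x :: c' :: l) (bd1 c) +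
        (-1 : ℚ) ^ c.q • Finsupp.single ((c * c') :: l) 1 +
        (-1 : ℚ) ^ (c.q + 1) • Finsupp.mapDomain (fun x => c :: x) (BD1 (c' :: l)) : BT S) [] = 0
    rw [Finsupp.add_apply, Finsupp.add_apply, Finsupp.smul_apply, Finsupp.smul_apply, h1, h2, h3]
    simp

theorem BD1_ne (l : List (Cb S)) : ∀ x ∈ (BD1 l).support, x ≠ [] := by
  rintro x hx rfl
  exact (Finsupp.mem_support_iff.mp hx) (G4_nil l)

private theorem G4_BD1 (Fm : Fam S) (m : ℕ) (l : List (Cb S)) : FF Fm m (BD1 l) = 0 := by
  match l with
  | [] => exact map_zero _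
  | [c] =>
    show FF Fm m (Finsupp.mapDomain (fun x => [x]) (bd1 c)) = 0
    unfold FF
    rw [Finsupp.linearCombination_mapDomain]
    exact Fcb_bd1 Fm m c
  | c :: c' :: l =>
    show FF Fm m (Finsupp.mapDomain (fun x => x :: c' :: l) (bd1 c) +
        (-1 : ℚ) ^ c.q • Finsupp.single ((c * c') :: l) 1 +
        (-1 : ℚ) ^ (c.q + 1) • Finsupp.mapDomain (fun x => c :: x) (BD1 (c' :: l))) = 0
    have h1 : FF Fm m (Finsupp.mapDomain (fun x => x :: c' :: l) (bd1 c)) = 0 :=
      G4_map Fm m _ _ (fun x _ => by simp)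
    have h2 : FF Fm m (Finsupp.single ((c * c') :: l) 1) = 0 := by
      unfold FF
      rw [Finsupp.linearCombination_single]
      match l with
      | [] =>
        show (1 : ℚ) • Fcb Fm m (c * c') = 0
        rw [Fcb_mul, smul_zero]
      | d :: l' => rw [G4_Fls_long Fm m _ (by simp), smul_zero]
    have h3 : FF Fm m (Finsupp.mapDomain (fun x => c :: x) (BD1 (c' :: l))) = 0 := by
      refine G4_map Fm m _ _ (fun x hx => ?_)
      have h4 := BD1_ne (c' :: l) x hx
      cases x with
      | nil => exact absurd rfl h4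
      | cons a t => simp
    rw [map_add, map_add, map_smul, map_smul, h1, h2, h3]
    simp

theorem FF_BD (Fm : Fam S) (m : ℕ) (w : BT S) : FF Fm m (BD w) = 0 := by
  induction w using Finsupp.induction_linear with
  | zero => rw [map_zero, map_zero]
  | add f g hf hg => rw [map_add, map_add, hf, hg, add_zero]
  | single l a =>
    have h : BD (Finsupp.single l a) = a • BD1 l := by
      unfold BD
      rw [Finsupp.linearCombination_single]
    rw [h, map_smul, G4_BD1, smul_zero]

/-- `FF` on one cube -/
theorem FF_single (Fm : Fam S) (m : ℕ) (c : Cb S) (a : ℚ) :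
    FF Fm m (Finsupp.single [c] a) = a * Fcb Fm m c := by
  unfold FF
  rw [Finsupp.linearCombination_single]
  rfl

/-- `FF` on longer lists -/
theorem FF_long (Fm : Fam S) (m : ℕ) (l : List (Cb S)) (hl : l.length ≠ 1) (a : ℚ) :
    FF Fm m (Finsupp.single l a) = 0 := by
  unfold FF
  rw [Finsupp.linearCombination_single, G4_Fls_long Fm m l hl, smul_zero]

end St16
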