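import Pool.Agent.LibST82.V

set_option autoImplicit false

/-!
ROW K1 (SHORT).  Binomial identity.  PLAN: put M = m - 1, s = m1 - 1 - r, so r + s < M.
choose M p * choose p r * choose (M - p) s = choose M r * choose (M - r) s * choose (M - r - s) (p - r)
for r <= p <= M - s (all zero otherwise).  Then the sum over p = r, ..., M - s of
(-1)^(M - p) * choose (M - r - s) (p - r) is 0 because M - r - s = m - m1 >= 1
(`Int.alternating_sum_range_choose_of_ne` or `(1 - 1)^n`, `Finset.sum_range_reflect`).
Useful: `Nat.choose_mul`, `Nat.choose_symm`.  (An induction on m with Pascal is also possible.)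
-/

namespace ST82

private theorem K1_term (M r s p : ℕ) (hp : p ≤ M) (hrs : r + s ≤ M) :
    M.choose p * (p.choose r * (M - p).choose s) =
      (M.choose r * (M - r).choose s) * (if s ≤ M - p then (M - r - s).choose (M - p - s) else 0) := by
  by_cases hs : s ≤ M - p
  · rw [if_pos hs]
    by_cases hr : r ≤ p
    · have h1 : M.choose p * p.choose r = M.choose r * (M - r).choose (p - r) :=
        Nat.choose_mul hr
      have h2 : (M - r).choose (p - r) = (M - r).choose (M - p) := by
        rw [← Nat.choose_symm (show M - p ≤ M - r by omega)]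
        congr 1
        omega
      have h3 : (M - r).choose (M - p) * (M - p).choose s =
          (M - r).choose s * (M - r - s).choose (M - p - s) :=
        Nat.choose_mul hs
      calc M.choose p * (p.choose r * (M - p).choose s)
          = (M.choose p * p.choose r) * (M - p).choose s := by ring
        _ = M.choose r * ((M - r).choose (M - p) * (M - p).choose s) := by rw [h1, h2]; ring
        _ = _ := by rw [h3]; ring
    · have h1 : p.choose r = 0 := Nat.choose_eq_zero_of_lt (by omega)
      have h2 : (M - r - s).choose (M - p - s) = 0 := Nat.choose_eq_zero_of_lt (by omega)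
      rw [h1, h2]
      simp
  · rw [if_neg hs]
    have h1 : (M - p).choose s = 0 := Nat.choose_eq_zero_of_lt (by omega)
    rw [h1]
    simp

open Finset in
private theorem K1_alt (M s N : ℕ) (hN : N ≠ 0) (h : s + N ≤ M) :
    ∑ q ∈ range (M + 1), (-1 : ℚ) ^ q * ((if s ≤ q then N.choose (q - s) else 0 : ℕ) : ℚ) = 0 := by
  have h1 : ∑ q ∈ range (M + 1), (-1 : ℚ) ^ q * ((if s ≤ q then N.choose (q - s) else 0 : ℕ) : ℚ)
      = ∑ q ∈ range (s + (N + 1)),
          (-1 : ℚ) ^ q * ((if s ≤ q then N.choose (q - s) else 0 : ℕ) : ℚ) := by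
    symm
    apply Finset.sum_subset
    · intro q hq
      rw [Finset.mem_range] at hq ⊢
      omega
    · intro q _ hq
      rw [Finset.mem_range] at hq
      have h2 : s ≤ q := by omega
      rw [if_pos h2, Nat.choose_eq_zero_of_lt (show N < q - s by omega)]
      simp
  rw [h1, Finset.sum_range_add]
  have h2 : ∑ q ∈ range s, (-1 : ℚ) ^ q * ((if s ≤ q then N.choose (q - s) else 0 : ℕ) : ℚ) = 0 := by
    apply Finset.sum_eq_zero
    intro q hq
    rw [Finset.mem_range] at hq
    rw [if_neg (by omega)]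
    simp
  rw [h2, zero_add]
  have h3 : ∀ t ∈ range (N + 1), (-1 : ℚ) ^ (s + t) *
      ((if s ≤ s + t then N.choose (s + t - s) else 0 : ℕ) : ℚ)
        = (-1) ^ s * ((-1 : ℚ) ^ t * (N.choose t : ℚ)) := by
    intro t _
    rw [if_pos (by omega), pow_add, Nat.add_sub_cancel_left]
    ring
  rw [Finset.sum_congr rfl h3, ← Finset.mul_sum]
  have h4 : ∑ t ∈ range (N + 1), (-1 : ℚ) ^ t * (N.choose t : ℚ) = 0 := by
    have h5 := Int.alternating_sum_range_choose_of_ne hN
    have h6 : ((∑ t ∈ range (N + 1), ((-1 : ℤ) ^ t * (N.choose t : ℤ)) : ℤ) : ℚ) = ((0 : ℤ) : ℚ) :=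
      congrArg _ h5
    push_cast at h6
    exact h6
  rw [h4, mul_zero]

open Finset in
theorem K1 (m m1 r : ℕ) (hr : r < m1) (hm : m1 < m) :
    ∑ p ∈ range m, (-1 : ℚ) ^ (m - 1 - p) * ((m - 1).choose p : ℚ) *
      ((p.choose r * (m - 1 - p).choose (m1 - 1 - r) : ℕ) : ℚ) = 0 := by
  obtain ⟨M, rfl⟩ : ∃ M, m = M + 1 := ⟨m - 1, by omega⟩
  rw [Nat.add_sub_cancel]
  set s := m1 - 1 - r with hs
  have hrs : r + s < M := by omega
  have h1 : ∀ p ∈ range (M + 1), (-1 : ℚ) ^ (M - p) * (M.choose p : ℚ) *
      ((p.choose r * (M - p).choose s : ℕ) : ℚ) =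
      ((M.choose r * (M - r).choose s : ℕ) : ℚ) *
      ((-1 : ℚ) ^ (M + 1 - 1 - p) *
        ((if s ≤ M + 1 - 1 - p then (M - r - s).choose (M + 1 - 1 - p - s) else 0 : ℕ) : ℚ)) := by
    intro p hp
    rw [Finset.mem_range] at hp
    rw [Nat.add_sub_cancel]
    have h2 := K1_term M r s p (by omega) (by omega)
    have h3 : (M.choose p : ℚ) * ((p.choose r * (M - p).choose s : ℕ) : ℚ) =
        ((M.choose r * (M - r).choose s : ℕ) : ℚ) *
          ((if s ≤ M - p then (M - r - s).choose (M - p - s) else 0 : ℕ) : ℚ) := by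
      rw [← Nat.cast_mul, ← Nat.cast_mul, h2]
    rw [mul_assoc, h3]
    ring
  rw [Finset.sum_congr rfl h1, ← Finset.mul_sum,
    Finset.sum_range_reflect (fun q => (-1 : ℚ) ^ q *
      ((if s ≤ q then (M - r - s).choose (q - s) else 0 : ℕ) : ℚ)) (M + 1),
    K1_alt M s (M - r - s) (by omega) (by omega), mul_zero]

end ST82
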