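import Pool.Agent.LibST82.V

set_option autoImplicit false

/-!
ROW K2 (SHORT/MEDIUM).  Number of the subsets `K` of `range m` with `m1` elements whose `r`-th element
(counted from 0) is `p`.  PLAN: bijection K |-> (K ∩ [0,p), K ∩ (p,m)) with
`powersetCard r (range p) ×ˢ powersetCard (m1 - 1 - r) (Ioo p m)` (inverse (X,Y) |-> X ∪ {p} ∪ Y),
`Finset.card_nbij'`, `Finset.card_powersetCard`, `Nat.card_Ioo`.
-/

namespace ST82

open Finset in
theorem K2 (m m1 p r : ℕ) (hp : p < m) (hr : r < m1) :
    (((range m).powersetCard m1).filter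
      (fun K => p ∈ K ∧ (K.filter (· < p)).card = r)).card =
      p.choose r * (m - 1 - p).choose (m1 - 1 - r) := by
  have hR : p.choose r * (m - 1 - p).choose (m1 - 1 - r) =
      ((powersetCard r (range p)) ×ˢ (powersetCard (m1 - 1 - r) (Ioo p m))).card := by
    rw [card_product, card_powersetCard, card_powersetCard, card_range, Nat.card_Ioo]
    congr 2
    omega
  rw [hR]
  refine Finset.card_nbij' (fun K => (K.filter (· < p), K.filter (p < ·)))
    (fun X => insert p (X.1 ∪ X.2)) ?_ ?_ ?_ ?_
  · intro K hK
    simp only [coe_filter, mem_powersetCard, Set.mem_ofPred_eq] at hK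
    obtain ⟨⟨h1, h2⟩, h3, h4⟩ := hK
    simp only [coe_product, Set.mem_prod, mem_coe, mem_powersetCard]
    refine ⟨⟨fun x hx => ?_, h4⟩, fun x hx => ?_, ?_⟩
    · exact mem_range.2 (mem_filter.1 hx).2
    · exact mem_Ioo.2 ⟨(mem_filter.1 hx).2, mem_range.1 (h1 (mem_filter.1 hx).1)⟩
    · have h5 : (K.filter (fun x => ¬ x < p)) = insert p (K.filter (p < ·)) := by
        ext x
        simp only [mem_filter, mem_insert, not_lt]
        constructor
        · rintro ⟨h6, h7⟩
          rcases h7.lt_or_eq with h8 | h8
          · exact Or.inr ⟨h6, h8⟩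
          · exact Or.inl h8.symm
        · rintro (h6 | ⟨h6, h7⟩)
          · rw [h6]; exact ⟨h3, le_rfl⟩
          · exact ⟨h6, h7.le⟩
      have h6 := Finset.card_filter_add_card_filter_not (s := K) (fun x => x < p)
      rw [h5, card_insert_of_notMem (by simp), h4, h2] at h6
      omega
  · rintro ⟨X, Y⟩ hXY
    simp only [coe_product, Set.mem_prod, mem_coe, mem_powersetCard] at hXY
    obtain ⟨⟨h1, h2⟩, h3, h4⟩ := hXY
    have hX : ∀ x ∈ X, x < p := fun x hx => mem_range.1 (h1 hx)
    have hY : ∀ x ∈ Y, p < x ∧ x < m := fun x hx => mem_Ioo.1 (h3 hx)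
    simp only [coe_filter, mem_powersetCard, Set.mem_ofPred_eq]
    have hd : Disjoint X Y := by
      rw [Finset.disjoint_left]
      intro x hx hy
      exact absurd (hX x hx) (not_lt.2 (hY x hy).1.le)
    have hn : p ∉ X ∪ Y := by
      rw [mem_union]
      rintro (h | h)
      · exact lt_irrefl _ (hX p h)
      · exact lt_irrefl _ (hY p h).1
    refine ⟨⟨fun x hx => ?_, ?_⟩, mem_insert_self _ _, ?_⟩
    · rw [mem_range]
      rcases mem_insert.1 hx with h | h
      · rw [h]; exact hp
      · rcases mem_union.1 h with h | h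
        · exact (hX x h).trans hp
        · exact (hY x h).2
    · rw [card_insert_of_notMem hn, card_union_of_disjoint hd, h2, h4]
      omega
    · have : (insert p (X ∪ Y)).filter (· < p) = X := by
        ext x
        simp only [mem_filter, mem_insert, mem_union]
        constructor
        · rintro ⟨h5 | h5 | h5, h6⟩
          · exact absurd h6 (by rw [h5]; exact lt_irrefl _)
          · exact h5
          · exact absurd h6 (not_lt.2 (hY x h5).1.le)
        · intro h5
          exact ⟨Or.inr (Or.inl h5), hX x h5⟩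
      rw [this, h2]
  · intro K hK
    simp only [coe_filter, mem_powersetCard, Set.mem_ofPred_eq] at hK
    obtain ⟨-, h3, -⟩ := hK
    ext x
    simp only [mem_insert, mem_union, mem_filter]
    constructor
    · rintro (h | ⟨h, -⟩ | ⟨h, -⟩)
      · rw [h]; exact h3
      · exact h
      · exact h
    · intro h
      rcases lt_trichotomy x p with h5 | h5 | h5
      · exact Or.inr (Or.inl ⟨h, h5⟩)
      · exact Or.inl h5
      · exact Or.inr (Or.inr ⟨h, h5⟩)
  · rintro ⟨X, Y⟩ hXY
    simp only [coe_product, Set.mem_prod, mem_coe, mem_powersetCard] at hXY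
    obtain ⟨⟨h1, h2⟩, h3, h4⟩ := hXY
    have hX : ∀ x ∈ X, x < p := fun x hx => mem_range.1 (h1 hx)
    have hY : ∀ x ∈ Y, p < x ∧ x < m := fun x hx => mem_Ioo.1 (h3 hx)
    refine Prod.ext ?_ ?_
    · ext x
      simp only [mem_filter, mem_insert, mem_union]
      constructor
      · rintro ⟨h5 | h5 | h5, h6⟩
        · exact absurd h6 (by rw [h5]; exact lt_irrefl _)
        · exact h5
        · exact absurd h6 (not_lt.2 (hY x h5).1.le)
      · intro h5
        exact ⟨Or.inr (Or.inl h5), hX x h5⟩
    · ext x
      simp only [mem_filter, mem_insert, mem_union]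
      constructor
      · rintro ⟨h5 | h5 | h5, h6⟩
        · exact absurd h6 (by rw [h5]; exact lt_irrefl _)
        · exact absurd (hX x h5) (not_lt.2 h6.le)
        · exact h5
      · intro h5
        exact ⟨Or.inr (Or.inr h5), (hY x h5).1⟩

end ST82
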