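import Pool.Agent.LibST82.K2

set_option autoImplicit false

/-!
ROW K3 (SHORT).  The same for the complement.  PLAN: K |-> range m \ K is a bijection from the sets
counted here onto the sets counted in K2 with m1 replaced by m - m1
(card (range m \ K) = m - m1; ((range m \ K).filter (· < p)).card = p - (K.filter (· < p)).card).
K2 may be cited.
-/

namespace ST82

open Finset in
private theorem K3_card (m p : ℕ) (hp : p < m) (K : Finset ℕ) :
    (((range m) \ K).filter (· < p)).card = p - (K.filter (· < p)).card := by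
  have h1 : ((range m) \ K).filter (· < p) = (range p) \ (K.filter (· < p)) := by
    ext x
    simp only [Finset.mem_filter, Finset.mem_sdiff, Finset.mem_range]
    constructor
    · rintro ⟨⟨h1, h2⟩, h3⟩
      exact ⟨h3, fun h => h2 h.1⟩
    · rintro ⟨h1, h2⟩
      exact ⟨⟨by omega, fun h => h2 ⟨h, h1⟩⟩, h1⟩
  rw [h1, Finset.card_sdiff_of_subset, Finset.card_range]
  intro x hx
  rw [Finset.mem_filter] at hx
  exact Finset.mem_range.mpr hx.2

open Finset in
theorem K3 (m m1 p r : ℕ) (hp : p < m) (hm : m1 ≤ m) (hr : r < m - m1) :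
    (((range m).powersetCard m1).filter
      (fun K => p ∉ K ∧ p - (K.filter (· < p)).card = r)).card =
      p.choose r * (m - 1 - p).choose (m - m1 - 1 - r) := by
  rw [← K2 m (m - m1) p r hp hr]
  apply Finset.card_nbij' (fun K => range m \ K) (fun K => range m \ K)
  · intro K hK
    simp only [Finset.coe_filter, Finset.mem_powersetCard, Set.mem_ofPred_eq] at hK ⊢
    obtain ⟨⟨h1, h2⟩, h3, h4⟩ := hK
    refine ⟨⟨Finset.sdiff_subset, ?_⟩, ?_, ?_⟩
    · rw [Finset.card_sdiff_of_subset h1, Finset.card_range, h2]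
    · rw [Finset.mem_sdiff]
      exact ⟨Finset.mem_range.mpr hp, h3⟩
    · rw [K3_card m p hp]
      exact h4
  · intro K hK
    simp only [Finset.coe_filter, Finset.mem_powersetCard, Set.mem_ofPred_eq] at hK ⊢
    obtain ⟨⟨h1, h2⟩, h3, h4⟩ := hK
    refine ⟨⟨Finset.sdiff_subset, ?_⟩, ?_, ?_⟩
    · rw [Finset.card_sdiff_of_subset h1, Finset.card_range, h2]
      omega
    · rw [Finset.mem_sdiff]
      exact fun h => h.2 h3
    · rw [← K3_card m p hp, Finset.sdiff_sdiff_eq_self h1]
      exact h4
  · intro K hK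
    simp only [Finset.coe_filter, Finset.mem_powersetCard, Set.mem_ofPred_eq] at hK
    exact Finset.sdiff_sdiff_eq_self hK.1.1
  · intro K hK
    simp only [Finset.coe_filter, Finset.mem_powersetCard, Set.mem_ofPred_eq] at hK
    exact Finset.sdiff_sdiff_eq_self hK.1.1

end ST82
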