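import Pool.Agent.LibST82.V

set_option autoImplicit false

/-!
ROW K4 (SHORT/MEDIUM).  `rho m1 K` is a permutation of `range m`, increasing on `K` (onto `[0,m1)`) and
on the complement (onto `[m1,m)`).  PLAN: for i < j both in K: (K.filter (· < j)) contains
(K.filter (· < i)) and i, so the cardinality grows; for i < j both outside: i - #K(<i) counts the
elements of (range i) \ K, same argument.  Injective: compare the two classes by K4a, K4b, inside a class
by K4c, K4d.
-/

namespace ST82

open Finset

/-- the number of elements below `i` outside `K` -/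
private def K4_d (K : Finset ℕ) (i : ℕ) : ℕ := ((range i).filter (· ∉ K)).card

private theorem K4_add (K : Finset ℕ) (i : ℕ) : (K.filter (· < i)).card + K4_d K i = i := by
  have h1 : K.filter (· < i) = (range i).filter (· ∈ K) := by
    ext x
    simp only [mem_filter, mem_range]
    tauto
  have h2 := card_filter_add_card_filter_not (s := range i) (· ∈ K)
  rw [card_range] at h2
  rw [h1]
  exact h2

private theorem K4_d_lt (K : Finset ℕ) {i j : ℕ} (hi : i ∉ K) (h : i < j) : K4_d K i < K4_d K j := by
  unfold K4_d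
  apply card_lt_card
  rw [ssubset_iff_of_subset]
  · exact ⟨i, by simp [hi, h], by simp⟩
  · intro x hx
    simp only [mem_filter, mem_range] at hx ⊢
    exact ⟨by omega, hx.2⟩

private theorem K4_c_lt (K : Finset ℕ) {i j : ℕ} (hi : i ∈ K) (h : i < j) :
    (K.filter (· < i)).card < (K.filter (· < j)).card := by
  apply card_lt_card
  rw [ssubset_iff_of_subset]
  · exact ⟨i, by simp [hi, h], by simp⟩
  · intro x hx
    simp only [mem_filter] at hx ⊢
    exact ⟨hx.1, by omega⟩

private theorem K4_out {m1 : ℕ} {K : Finset ℕ} {i : ℕ} (hi : i ∉ K) :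
    rho m1 K i = m1 + K4_d K i := by
  unfold rho
  rw [if_neg hi]
  have := K4_add K i
  omega

private theorem K4_in {m1 : ℕ} {K : Finset ℕ} {i : ℕ} (hi : i ∈ K) :
    rho m1 K i = (K.filter (· < i)).card := by
  unfold rho
  rw [if_pos hi]

private theorem K4_c_top {m m1 : ℕ} {K : Finset ℕ} (hK : K ∈ (range m).powersetCard m1) :
    (K.filter (· < m)).card = m1 := by
  obtain ⟨h1, h2⟩ := mem_powersetCard.1 hK
  rw [filter_true_of_mem fun x hx => mem_range.1 (h1 hx)]
  exact h2

variable (m m1 : ℕ) (K : Finset ℕ) (hK : K ∈ (range m).powersetCard m1)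

include hK

theorem K4a (i : ℕ) (hi : i ∈ K) : rho m1 K i < m1 := by
  obtain ⟨h1, h2⟩ := mem_powersetCard.1 hK
  rw [K4_in hi]
  have h3 := K4_c_lt K hi (mem_range.1 (h1 hi))
  rw [K4_c_top hK] at h3
  exact h3

theorem K4b (i : ℕ) (hm : i < m) (hi : i ∉ K) : m1 ≤ rho m1 K i ∧ rho m1 K i < m := by
  rw [K4_out hi]
  have h3 := K4_d_lt K hi hm
  have h4 := K4_add K m
  rw [K4_c_top hK] at h4
  omega

theorem K4c (i j : ℕ) (hi : i ∈ K) (hj : j ∈ K) (h : i < j) : rho m1 K i < rho m1 K j := by
  rw [K4_in hi, K4_in hj]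
  exact K4_c_lt K hi h

theorem K4d (i j : ℕ) (hi : i ∉ K) (hj : j ∉ K) (hm : j < m) (h : i < j) :
    rho m1 K i < rho m1 K j := by
  rw [K4_out hi, K4_out hj]
  exact Nat.add_lt_add_left (K4_d_lt K hi h) m1

theorem K4e (i : ℕ) (hi : i < m) : rho m1 K i < m := by
  by_cases h : i ∈ K
  · have h1 := K4a m m1 K hK i h
    have h2 : m1 ≤ m := by
      have h4 := K4_add K m
      rw [K4_c_top hK] at h4
      omega
    omega
  · exact (K4b m m1 K hK i hi h).2

theorem K4f (i j : ℕ) (hi : i < m) (hj : j < m) (h : rho m1 K i = rho m1 K j) : i = j := by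
  by_cases h1 : i ∈ K
  · by_cases h2 : j ∈ K
    · rcases lt_trichotomy i j with h3 | h3 | h3
      · have := K4c m m1 K hK i j h1 h2 h3
        omega
      · exact h3
      · have := K4c m m1 K hK j i h2 h1 h3
        omega
    · have h3 := K4a m m1 K hK i h1
      have h4 := (K4b m m1 K hK j hj h2).1
      omega
  · by_cases h2 : j ∈ K
    · have h3 := K4a m m1 K hK j h2
      have h4 := (K4b m m1 K hK i hi h1).1
      omega
    · rcases lt_trichotomy i j with h3 | h3 | h3
      · have := K4d m m1 K hK i j h1 h2 hj h3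
        omega
      · exact h3
      · have := K4d m m1 K hK j i h2 h1 hi h3
        omega

end ST82
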