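import Pool.Agent.LibST82.K1
import Pool.Agent.LibST82.K3
import Pool.Agent.LibST82.K4

set_option autoImplicit false

/-!
ROW K5 (MEDIUM).  The Lie functional kills shuffles.  PLAN: for K in powersetCard m1 (range m), by K4
`rho m1 K` permutes range m, so prod over (range m).erase p of b (rho j) = prod over
(range m).erase (rho p) of b j.  Hence with W r = a r * prod over (range m).erase r of b and
coef p = (-1)^(m-1-p) * choose (m-1) p:
  sum_K kap = sum_K sum_p coef p * W (rho m1 K p) = sum_p sum_(r < m) coef p * W r * #{K : rho m1 K p = r}.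
For r < m1: rho m1 K p = r iff p ∈ K and #(K.filter (· < p)) = r  (K4b excludes p ∉ K): K2 and K1.
For r = m1 + r', r' < m - m1: iff p ∉ K and p - #(K.filter (· < p)) = r' (K4a): K3 and K1 (with m1 replaced
by m - m1).
-/

namespace ST82

open Finset in
private theorem K5_prod (m m1 : ℕ) (K : Finset ℕ) (hK : K ∈ (range m).powersetCard m1)
    (b : ℕ → ℚ) (p : ℕ) (hp : p < m) :
    ∏ j ∈ (range m).erase p, b (rho m1 K j) = ∏ j ∈ (range m).erase (rho m1 K p), b j := by
  have hinj : Set.InjOn (rho m1 K) (range m : Set ℕ) := by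
    intro i hi j hj h
    exact K4f m m1 K hK i j (by simpa using hi) (by simpa using hj) h
  have himg : (range m).image (rho m1 K) = range m := by
    apply Finset.eq_of_subset_of_card_le
    · intro x hx
      obtain ⟨i, hi, rfl⟩ := Finset.mem_image.1 hx
      exact Finset.mem_range.2 (K4e m m1 K hK i (Finset.mem_range.1 hi))
    · rw [Finset.card_image_of_injOn hinj]
  have himg2 : ((range m).erase p).image (rho m1 K) = (range m).erase (rho m1 K p) := by
    ext x
    constructor
    · intro hx
      obtain ⟨i, hi, rfl⟩ := Finset.mem_image.1 hx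
      obtain ⟨h1, h2⟩ := Finset.mem_erase.1 hi
      refine Finset.mem_erase.2 ⟨fun h => h1 ?_, ?_⟩
      · exact K4f m m1 K hK i p (Finset.mem_range.1 h2) hp h
      · exact Finset.mem_range.2 (K4e m m1 K hK i (Finset.mem_range.1 h2))
    · intro hx
      obtain ⟨h1, h2⟩ := Finset.mem_erase.1 hx
      rw [← himg] at h2
      obtain ⟨i, hi, rfl⟩ := Finset.mem_image.1 h2
      refine Finset.mem_image.2 ⟨i, Finset.mem_erase.2 ⟨fun h => h1 (by rw [h]), hi⟩, rfl⟩
  rw [← himg2, Finset.prod_image]
  intro i hi j hj h
  exact hinj (by simpa using (Finset.mem_erase.1 hi).2) (by simpa using (Finset.mem_erase.1 hj).2) h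

open Finset in
private theorem K5_cnt (m m1 : ℕ) (h2 : m1 < m) (p r : ℕ) (hp : p < m) :
    ((((range m).powersetCard m1).filter (fun K => rho m1 K p = r)).card =
      if r < m1 then p.choose r * (m - 1 - p).choose (m1 - 1 - r)
      else if r < m then p.choose (r - m1) * (m - 1 - p).choose (m - m1 - 1 - (r - m1)) else 0) := by
  by_cases hr : r < m1
  · rw [if_pos hr, ← K2 m m1 p r hp hr]
    congr 1
    apply Finset.filter_congr
    intro K hK
    constructor
    · intro h
      by_cases hpK : p ∈ K
      · refine ⟨hpK, ?_⟩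
        unfold rho at h
        rwa [if_pos hpK] at h
      · have := (K4b m m1 K hK p hp hpK).1
        omega
    · rintro ⟨hpK, h⟩
      unfold rho
      rw [if_pos hpK]
      exact h
  · rw [if_neg hr]
    by_cases hrm : r < m
    · rw [if_pos hrm, ← K3 m m1 p (r - m1) hp h2.le (by omega)]
      congr 1
      apply Finset.filter_congr
      intro K hK
      constructor
      · intro h
        by_cases hpK : p ∈ K
        · have := K4a m m1 K hK p hpK
          omega
        · refine ⟨hpK, ?_⟩
          unfold rho at h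
          rw [if_neg hpK] at h
          omega
      · rintro ⟨hpK, h⟩
        unfold rho
        rw [if_neg hpK]
        omega
    · rw [if_neg hrm, Finset.card_eq_zero, Finset.filter_eq_empty_iff]
      intro K hK h
      have := K4e m m1 K hK p hp
      omega

open Finset in
theorem K5 (m m1 : ℕ) (h1 : 1 ≤ m1) (h2 : m1 < m) (a b : ℕ → ℚ) :
    ∑ K ∈ (range m).powersetCard m1, kap m (fun i => a (rho m1 K i)) (fun i => b (rho m1 K i)) = 0 := by
  set W : ℕ → ℚ := fun r => a r * ∏ j ∈ (range m).erase r, b j with hW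
  have e1 : ∑ K ∈ (range m).powersetCard m1,
      kap m (fun i => a (rho m1 K i)) (fun i => b (rho m1 K i)) =
      ∑ K ∈ (range m).powersetCard m1, ∑ p ∈ range m,
        (-1 : ℚ) ^ (m - 1 - p) * ((m - 1).choose p : ℚ) * W (rho m1 K p) := by
    refine Finset.sum_congr rfl fun K hK => ?_
    unfold kap
    refine Finset.sum_congr rfl fun p hp => ?_
    rw [K5_prod m m1 K hK b p (Finset.mem_range.1 hp)]
  rw [e1, Finset.sum_comm]
  have e2 : ∀ p ∈ range m, ∑ K ∈ (range m).powersetCard m1,
      (-1 : ℚ) ^ (m - 1 - p) * ((m - 1).choose p : ℚ) * W (rho m1 K p) =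
      ∑ r ∈ range m, W r * ((-1 : ℚ) ^ (m - 1 - p) * ((m - 1).choose p : ℚ) *
        ((if r < m1 then p.choose r * (m - 1 - p).choose (m1 - 1 - r)
          else if r < m then p.choose (r - m1) * (m - 1 - p).choose (m - m1 - 1 - (r - m1))
          else 0 : ℕ) : ℚ)) := by
    intro p hp
    have hp' := Finset.mem_range.1 hp
    rw [← Finset.sum_fiberwise_of_maps_to (g := fun K => rho m1 K p) (t := range m)
      (fun K hK => Finset.mem_range.2 (K4e m m1 K hK p hp'))]
    refine Finset.sum_congr rfl fun r hr => ?_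
    rw [← K5_cnt m m1 h2 p r hp']
    have e3 : ∀ K ∈ ((range m).powersetCard m1).filter (fun K => rho m1 K p = r),
        (-1 : ℚ) ^ (m - 1 - p) * ((m - 1).choose p : ℚ) * W (rho m1 K p) =
        (-1 : ℚ) ^ (m - 1 - p) * ((m - 1).choose p : ℚ) * W r := by
      intro K hK
      rw [(Finset.mem_filter.1 hK).2]
    rw [Finset.sum_congr rfl e3, Finset.sum_const, nsmul_eq_mul]
    ring
  rw [Finset.sum_congr rfl e2, Finset.sum_comm]
  refine Finset.sum_eq_zero fun r hr => ?_
  have hrm := Finset.mem_range.1 hr
  rw [← Finset.mul_sum]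
  by_cases hr1 : r < m1
  · simp only [if_pos hr1]
    rw [K1 m m1 r hr1 h2, mul_zero]
  · simp only [if_neg hr1, if_pos hrm]
    rw [K1 m (m - m1) (r - m1) (by omega) (by omega), mul_zero]

end ST82
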