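import Pool.Agent.LibST82.V

set_option autoImplicit false

/-!
ROW P1 (SHORT/MEDIUM).  One step of a path of the product cube.  `blk q σ t`: the coordinate σ t is one of the
first q.  PLAN: if blk: the two vertices agree on all coordinates >= q (`vtx_succ_of_ne`), so the second
block does not change: `fun i => vtx σ (t+1) (q+i)` = `fun i => vtx σ t (q+i)`, and len = len1 + len2 x x,
`Datum.len_self`.  If not blk: σ t >= q, the two vertices agree on the coordinates < q, so l1 agrees by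
`hc1.depl`.
-/

namespace ST82

variable {G P G1 P1 G2 P2 : Type*} {D1 : Datum G1 P1} {D2 : Datum G2 P2} {D : Datum G P}

/-- second block of a vertex -/
theorem P1a {N : ℕ} (q : ℕ) (σ : Equiv.Perm (Fin N)) (t : ℕ) (ht : t < N) (hb : blk q σ t) :
    (fun i => vtx σ (t + 1) (q + i)) = (fun i => vtx σ t (q + i)) := by
  obtain ⟨h, h1⟩ := hb
  funext i
  exact vtx_succ_of_ne σ t ht (q + i) (by omega)

/-- first block of a vertex -/
theorem P1b {N : ℕ} (q : ℕ) (σ : Equiv.Perm (Fin N)) (t : ℕ) (ht : t < N) (hb : ¬ blk q σ t)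
    (k : ℕ) (hk : k < q) : vtx σ (t + 1) k = vtx σ t k := by
  apply vtx_succ_of_ne σ t ht k
  rintro rfl
  exact hb ⟨ht, hk⟩

theorem P1c (T : Block D1 D2 D) (N q q' : ℕ) (hN : q + q' = N)
    (y1 : (ℕ → Bool) → G1) (l1 : (ℕ → Bool) → P1) (y2 : (ℕ → Bool) → G2) (l2 : (ℕ → Bool) → P2)
    (hc1 : IsCube D1 q y1 l1) (hc2 : IsCube D2 q' y2 l2) (σ : Equiv.Perm (Fin N)) (t : ℕ)
    (ht : t < N) :
    (blk q σ t → D.len (pl T q l1 l2 (vtx σ t)) (pl T q l1 l2 (vtx σ (t + 1))) =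
      D1.len (l1 (vtx σ t)) (l1 (vtx σ (t + 1)))) ∧
    (¬ blk q σ t → D.len (pl T q l1 l2 (vtx σ t)) (pl T q l1 l2 (vtx σ (t + 1))) =
      D2.len (l2 (fun i => vtx σ t (q + i))) (l2 (fun i => vtx σ (t + 1) (q + i)))) := by
  have hm : vtx σ t ≤ vtx σ (t + 1) := vtx_mono σ (Nat.le_succ t)
  have hm2 : (fun i => vtx σ t (q + i)) ≤ (fun i => vtx σ (t + 1) (q + i)) := fun i => hm (q + i)
  have hlen : D.len (pl T q l1 l2 (vtx σ t)) (pl T q l1 l2 (vtx σ (t + 1))) =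
      D1.len (l1 (vtx σ t)) (l1 (vtx σ (t + 1))) +
      D2.len (l2 (fun i => vtx σ t (q + i))) (l2 (fun i => vtx σ (t + 1) (q + i))) :=
    T.len _ _ _ _ (hc1.pm _) (hc1.pm _) (hc1.mono _ _ hm) (hc2.pm _) (hc2.pm _) (hc2.mono _ _ hm2)
  refine ⟨fun hb => ?_, fun hb => ?_⟩
  · rw [hlen, P1a q σ t ht hb, D2.len_self _ (hc2.pm _) (hc2.mono _ _ le_rfl), add_zero]
  · have h1 : l1 (vtx σ (t + 1)) = l1 (vtx σ t) :=
      hc1.depl _ _ fun k hk => P1b q σ t ht hb k hk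
    rw [hlen, h1, D1.len_self _ (hc1.pm _) (hc1.mono _ _ le_rfl), zero_add]

end ST82
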