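import Pool.Agent.LibST82.P1

set_option autoImplicit false

/-!
ROW P2 (MEDIUM).  If all the front steps have length one then the number of front steps in the first block
is exactly half the rank of the first block.  PLAN: with n1 = D1.rk, n2 = D2.rk, n1 + n2 = m + m:
len1 (l1 (vtx σ 0)) (l1 (vtx σ m)) = sum_(i<m) len1 (l1 (vtx σ i)) (l1 (vtx σ (i+1))) (len_add, mono,
vtx_mono), the term i is 1 if blk (P1c and the hypothesis) and 0 otherwise (l1 does not change: P1b,
depl, len_self): so #{i < m : blk} = len1 (..) and 2 * # <= n1; the same for the second block: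
2 * #{i < m : not blk} <= n2; the two numbers add up to m.
-/

namespace ST82

variable {G P G1 P1 G2 P2 : Type*} {D1 : Datum G1 P1} {D2 : Datum G2 P2} {D : Datum G P}

/-- telescoping -/
private theorem P2_tel (E : Datum G P) (l : ℕ → P) (hp : ∀ i, E.pm (l i))
    (hm : ∀ i j, i ≤ j → E.le (l i) (l j)) (m : ℕ) :
    ∑ i ∈ Finset.range m, E.len (l i) (l (i + 1)) = E.len (l 0) (l m) := by
  induction m with
  | zero => rw [Finset.sum_range_zero, E.len_self _ (hp 0) (hm 0 0 le_rfl)]
  | succ m ih =>
    rw [Finset.sum_range_succ, ih,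
      ← E.len_add _ _ _ (hp 0) (hp m) (hp (m + 1)) (hm 0 m (Nat.zero_le _)) (hm m (m + 1) (by omega))]

open Classical in
theorem P2t (T : Block D1 D2 D) (m q q' : ℕ) (hN : q + q' = m + m) (hrk : D1.rk + D2.rk = m + m)
    (y1 : (ℕ → Bool) → G1) (l1 : (ℕ → Bool) → P1) (y2 : (ℕ → Bool) → G2) (l2 : (ℕ → Bool) → P2)
    (hc1 : IsCube D1 q y1 l1) (hc2 : IsCube D2 q' y2 l2) (σ : Equiv.Perm (Fin (m + m)))
    (hone : ∀ i < m, D.len (pl T q l1 l2 (vtx σ i)) (pl T q l1 l2 (vtx σ (i + 1))) = 1) :
    2 * ((Finset.range m).filter (fun i => blk q σ i)).card = D1.rk := by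
  set K := (Finset.range m).filter (fun i => blk q σ i) with hK
  have hc := P1c T (m + m) q q' hN y1 l1 y2 l2 hc1 hc2 σ
  -- first block
  have e1 : ∑ i ∈ Finset.range m, D1.len (l1 (vtx σ i)) (l1 (vtx σ (i + 1))) = K.card := by
    rw [hK, Finset.card_filter]
    refine Finset.sum_congr rfl fun i hi => ?_
    have hi' := Finset.mem_range.1 hi
    by_cases hb : blk q σ i
    · rw [if_pos hb, ← (hc i (by omega)).1 hb]
      exact hone i hi'
    · rw [if_neg hb]
      have h1 : l1 (vtx σ (i + 1)) = l1 (vtx σ i) :=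
        hc1.depl _ _ fun k hk => P1b q σ i (by omega) hb k hk
      rw [h1]
      exact D1.len_self _ (hc1.pm _) (hc1.mono _ _ le_rfl)
  have e2 : ∑ i ∈ Finset.range m, D2.len (l2 (fun k => vtx σ i (q + k)))
      (l2 (fun k => vtx σ (i + 1) (q + k))) = m - K.card := by
    have h2 : ∑ i ∈ Finset.range m, D2.len (l2 (fun k => vtx σ i (q + k)))
        (l2 (fun k => vtx σ (i + 1) (q + k))) =
        ((Finset.range m).filter (fun i => ¬ blk q σ i)).card := by
      rw [Finset.card_filter]
      refine Finset.sum_congr rfl fun i hi => ?_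
      have hi' := Finset.mem_range.1 hi
      by_cases hb : blk q σ i
      · rw [if_neg (not_not.2 hb)]
        have h1 := P1a q σ i (by omega) hb
        rw [h1]
        exact D2.len_self _ (hc2.pm _) (hc2.mono _ _ le_rfl)
      · rw [if_pos hb, ← (hc i (by omega)).2 hb]
        exact hone i hi'
    have h3 := Finset.card_filter_add_card_filter_not (s := Finset.range m) (fun i => blk q σ i)
    rw [h2]
    rw [Finset.card_range] at h3
    have h4 : K.card + ((Finset.range m).filter (fun i => ¬ blk q σ i)).card = m := h3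
    omega
  have t1 := P2_tel D1 (fun i => l1 (vtx σ i)) (fun i => hc1.pm _)
    (fun i j hij => hc1.mono _ _ (vtx_mono σ hij)) m
  have t2 := P2_tel D2 (fun i => l2 (fun k => vtx σ i (q + k))) (fun i => hc2.pm _)
    (fun i j hij => hc2.mono _ _ (fun k => vtx_mono σ hij (q + k))) m
  have hle : K.card ≤ m := by
    have := Finset.card_filter_le (Finset.range m) (fun i => blk q σ i)
    rwa [Finset.card_range] at this
  have b1 := D1.len_le (l1 (vtx σ 0)) (l1 (vtx σ m)) (hc1.pm _) (hc1.pm _)
    (hc1.mono _ _ (vtx_mono σ (Nat.zero_le m)))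
  have b2 := D2.len_le (l2 (fun k => vtx σ 0 (q + k))) (l2 (fun k => vtx σ m (q + k)))
    (hc2.pm _) (hc2.pm _) (hc2.mono _ _ (fun k => vtx_mono σ (Nat.zero_le m) (q + k)))
  rw [e1] at t1
  rw [e2] at t2
  omega

end ST82
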