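import Pool.Agent.LibST82.D

set_option autoImplicit false

/-!
Elementary facts about `vtx`, `skip`, `ins`, `kap` (proved).
-/

namespace ST82

theorem vtx_lt {N : ℕ} (σ : Equiv.Perm (Fin N)) (t k : ℕ) (h : k < N) :
    vtx σ t k = decide ((σ.symm ⟨k, h⟩ : ℕ) < t) := by
  unfold vtx; rw [dif_pos h]

theorem vtx_ge {N : ℕ} (σ : Equiv.Perm (Fin N)) (t k : ℕ) (h : ¬ k < N) :
    vtx σ t k = false := by
  unfold vtx; rw [dif_neg h]

theorem vtx_mono {N : ℕ} (σ : Equiv.Perm (Fin N)) {t t' : ℕ} (h : t ≤ t') :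
    vtx σ t ≤ vtx σ t' := by
  intro k
  by_cases hk : k < N
  · rw [vtx_lt σ t k hk, vtx_lt σ t' k hk]
    intro h1
    have h2 := of_decide_eq_true h1
    exact decide_eq_true (lt_of_lt_of_le h2 h)
  · rw [vtx_ge σ t k hk, vtx_ge σ t' k hk]

/-- a step changes only the coordinate `σ t` -/
theorem vtx_succ_of_ne {N : ℕ} (σ : Equiv.Perm (Fin N)) (t : ℕ) (ht : t < N) (k : ℕ)
    (hk : k ≠ (σ ⟨t, ht⟩ : ℕ)) : vtx σ (t + 1) k = vtx σ t k := by
  by_cases h : k < N
  · rw [vtx_lt σ (t + 1) k h, vtx_lt σ t k h]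
    have hne : (σ.symm ⟨k, h⟩ : ℕ) ≠ t := by
      intro h1
      apply hk
      have h2 : σ.symm ⟨k, h⟩ = ⟨t, ht⟩ := Fin.ext h1
      rw [← h2, Equiv.apply_symm_apply]
    rw [decide_eq_decide]
    omega
  · rw [vtx_ge σ _ k h, vtx_ge σ _ k h]

theorem skip_lt {j t : ℕ} (h : t < j) : skip j t = t := if_pos h

theorem skip_ge {j t : ℕ} (h : j ≤ t) : skip j t = t + 1 := if_neg (by omega)

theorem skip_mono (j : ℕ) {t t' : ℕ} (h : t ≤ t') : skip j t ≤ skip j t' := by
  unfold skip; split_ifs <;> omega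

/-- a letter with both values zero kills the word -/
theorem kap_zero (m : ℕ) (a b : ℕ → ℚ) (i : ℕ) (hi : i < m) (ha : a i = 0) (hb : b i = 0) :
    kap m a b = 0 := by
  unfold kap
  apply Finset.sum_eq_zero
  intro p _
  by_cases hp : p = i
  · rw [hp, ha, zero_mul, mul_zero]
  · have : ∏ j ∈ (Finset.range m).erase p, b j = 0 :=
      Finset.prod_eq_zero (Finset.mem_erase.mpr ⟨fun h => hp h.symm, Finset.mem_range.mpr hi⟩) hb
    rw [this, mul_zero, mul_zero]

theorem kap_congr (m : ℕ) (a b a' b' : ℕ → ℚ) (ha : ∀ i < m, a i = a' i) (hb : ∀ i < m, b i = b' i) :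
    kap m a b = kap m a' b' := by
  unfold kap
  apply Finset.sum_congr rfl
  intro p hp
  rw [ha p (Finset.mem_range.mp hp)]
  congr 2
  apply Finset.prod_congr rfl
  intro j hj
  exact hb j (Finset.mem_range.mp (Finset.mem_of_mem_erase hj))

variable {G P : Type*} (D : Datum G P)

theorem Datum.len_self (x : P) (h : D.pm x) (hle : D.le x x) : D.len x x = 0 := by
  have := D.len_add x x x h h h hle hle
  omega

theorem Datum.A_self (g : G) (x y : P) (hg : D.gm g) (hx : D.pm x) (hy : D.pm y) (hle : D.le x y)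
    (h1 : D.len x y = 1) : D.A g g x y = 0 := by
  have := D.A_add g g g x y hg hg hg hx hy hle h1
  linarith

theorem Datum.B_self (g : G) (x y : P) (hg : D.gm g) (hx : D.pm x) (hy : D.pm y) (hle : D.le x y)
    (h1 : D.len x y = 1) : D.B g g x y = 0 := by
  have := D.B_add g g g x y hg hg hg hx hy hle h1
  linarith

/-- `sp` depends only on the times `<= m + m` -/
theorem sp_congr (m : ℕ) (y y' : ℕ → G) (l l' : ℕ → P) (hy : ∀ t ≤ m + m, y t = y' t)
    (hl : ∀ t ≤ m + m, l t = l' t) : sp D m y l = sp D m y' l' := by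
  unfold sp
  have h1 : (∀ i < m, D.len (l i) (l (i + 1)) = 1) ↔ (∀ i < m, D.len (l' i) (l' (i + 1)) = 1) := by
    constructor
    · intro h i hi
      rw [← hl i (by omega), ← hl (i + 1) (by omega)]; exact h i hi
    · intro h i hi
      rw [hl i (by omega), hl (i + 1) (by omega)]; exact h i hi
  by_cases h : ∀ i < m, D.len (l i) (l (i + 1)) = 1
  · rw [if_pos h, if_pos (h1.mp h)]
    apply kap_congr
    · intro i hi
      rw [hy (m + i) (by omega), hy (m + i + 1) (by omega), hl i (by omega), hl (i + 1) (by omega)]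
    · intro i hi
      rw [hy (m + i) (by omega), hy (m + i + 1) (by omega), hl i (by omega), hl (i + 1) (by omega)]
  · rw [if_neg h, if_neg (fun h' => h (h1.mpr h'))]

end ST82
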